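import Pool.Agent.H980R2.Unif.U3
import Pool.Agent.H974R2.Split

/-! U4: bounded expected number of clusters crossing an annulus (BK + RSW, all in `H974R2`).

`Kb m` = vertices of sup-norm `≤ m`, `Bb m` = vertices of sup-norm `≥ 3m`.  For `m ≥ 5`, with
`S = boxE (3m)` (or any `S` containing it): if a vertex of `Kb m` is connected to `Bb m` in `G` then
`¬ Blk m (3m) G` (same proof as `not_blk_of_arm`, with a start vertex in the box `m` instead of the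
origin), so the probability is at most `1 - (1/2)^188` (`pr_Blk`, `Pr_not`), for every finite set `S` of
edges by `Pr_mono_set` (event increasing; enlarge `S` to `S ∪ boxE (3m)`).  Then `NC_sq` gives
`E[NC^2] ≤ 2/(2^(-188))^2`, and `NC ≤ NC^2`.  For `m < 5`: `NC ≤ |Kb m| ≤ 81`.  The center `(x0,y0)` is
arbitrary by translation (`Ex_map`, `Pr_map`, or the shift maps used in `arm_bound`). -/

namespace Pool.Agent.H980R2.Unif

open Pool.Agent.H988R2.Perc Pool.Agent.H980R2.Cross MeasureTheory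

/-- vertices at sup-distance at most `m` of `(x0,y0)` -/
noncomputable def Kb (x0 y0 : ℤ) (m : ℕ) : Finset (ℤ × ℤ) := Finset.Icc (x0 - m) (x0 + m) ×ˢ Finset.Icc (y0 - m) (y0 + m)

/-- vertices at sup-distance at least `3m` of `(x0,y0)` -/
def Bb (x0 y0 : ℤ) (m : ℕ) : Set (ℤ × ℤ) := {v | 3 * (m:ℤ) ≤ |v.1 - x0| ∨ 3 * (m:ℤ) ≤ |v.2 - y0|}

open H974 in
theorem u4_not_blk {F : Finset Edg} {R1 R2 : ℤ} (_h1 : 0 ≤ R1) (h2 : R1 < R2) {u v : Vtx}
    (hu : inR (-R1) R1 (-R1) R1 u)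
    (h : Reach (↑F : Set Edg) u v) (hv : v.1 ≤ -R2 ∨ R2 ≤ v.1 ∨ v.2 ≤ -R2 ∨ R2 ≤ v.2) :
    ¬ Blk R1 R2 F := by
  obtain ⟨⟨u1, u2⟩, u3, u4⟩ := hu
  obtain ⟨w, k1, k2, k3⟩ := first_exit (a := -R2) (b := R2) (c := -R2) (d := R2)
    (by unfold inR; omega) h hv
  rintro ⟨hb1, hb2⟩
  rcases k2 with k2 | k2 | k2 | k2
  · apply hb1
    right
    obtain ⟨y1, y2, m1, m2, m3, -⟩ := sub_LR (a := -R2) (b := -R1) (c := -R2) (d := R2) (by omega)
      (by rintro x y ⟨-, h⟩ _ _; simp only [Finset.mem_coe, mem_RE_true] at h; omega)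
      (by rintro x y ⟨-, h⟩ _ _; simp only [Finset.mem_coe, mem_RE_false] at h; omega)
      k3.symm k2.le u1
    exact ⟨y1, y2, m1, m2, m3.mono (by rintro e ⟨⟨h4, -⟩, h5⟩; exact ⟨h4, h5⟩)⟩
  · apply hb1
    left
    obtain ⟨y1, y2, m1, m2, m3, -⟩ := sub_LR (a := R1) (b := R2) (c := -R2) (d := R2) (by omega)
      (by rintro x y ⟨-, h⟩ _ _; simp only [Finset.mem_coe, mem_RE_true] at h; omega)
      (by rintro x y ⟨-, h⟩ _ _; simp only [Finset.mem_coe, mem_RE_false] at h; omega)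
      k3 u2 k2.ge
    exact ⟨y1, y2, m1, m2, m3.mono (by rintro e ⟨⟨h4, -⟩, h5⟩; exact ⟨h4, h5⟩)⟩
  · apply hb2
    right
    obtain ⟨y1, y2, m1, m2, m3, -⟩ := sub_TB (a := -R2) (b := R2) (c := -R2) (d := -R1) (by omega)
      (by rintro x y ⟨-, h⟩ _ _; simp only [Finset.mem_coe, mem_RE_false] at h; omega)
      (by rintro x y ⟨-, h⟩ _ _; simp only [Finset.mem_coe, mem_RE_true] at h; omega)
      k3.symm k2.le u3
    exact ⟨y1, y2, m1, m2, m3.mono (by rintro e ⟨⟨h4, -⟩, h5⟩; exact ⟨h4, h5⟩)⟩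
  · apply hb2
    left
    obtain ⟨y1, y2, m1, m2, m3, -⟩ := sub_TB (a := -R2) (b := R2) (c := R1) (d := R2) (by omega)
      (by rintro x y ⟨-, h⟩ _ _; simp only [Finset.mem_coe, mem_RE_false] at h; omega)
      (by rintro x y ⟨-, h⟩ _ _; simp only [Finset.mem_coe, mem_RE_true] at h; omega)
      k3 u4 k2.ge
    exact ⟨y1, y2, m1, m2, m3.mono (by rintro e ⟨⟨h4, -⟩, h5⟩; exact ⟨h4, h5⟩)⟩

theorem u4_mem_Kb {x0 y0 : ℤ} {m : ℕ} {v : ℤ × ℤ} :
    v ∈ Kb x0 y0 m ↔ (x0 - m ≤ v.1 ∧ v.1 ≤ x0 + m) ∧ (y0 - m ≤ v.2 ∧ v.2 ≤ y0 + m) := by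
  unfold Kb
  rw [Finset.mem_product, Finset.mem_Icc, Finset.mem_Icc]

theorem u4_card_Kb (x0 y0 : ℤ) (m : ℕ) : (Kb x0 y0 m).card = (2 * m + 1) ^ 2 := by
  unfold Kb
  rw [Finset.card_product, Int.card_Icc, Int.card_Icc]
  have e1 : (x0 + (m:ℤ) + 1 - (x0 - m)).toNat = 2 * m + 1 := by omega
  have e2 : (y0 + (m:ℤ) + 1 - (y0 - m)).toNat = 2 * m + 1 := by omega
  rw [e1, e2, sq]

/-- the probability that the annulus around `(x0,y0)` is crossed -/
theorem u4_prob {m : ℕ} (hm : 5 ≤ m) (x0 y0 : ℤ) (S : Finset H974.Edg) :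
    H974.Pr (fun _ => (1/2 : ℝ)) S (fun F => ∃ x ∈ Kb x0 y0 m,
      H974.RB H974.src H974.tgt (Bb x0 y0 m) (↑F : Set H974.Edg) x) ≤ 1 - (1/2 : ℝ)^188 := by
  have ok := H974.okq (q := 1/2) (by norm_num) (by norm_num)
  have hm' : (5:ℤ) ≤ m := by exact_mod_cast hm
  have hlt : m < 3 * m := by omega
  have hcast : (((3 * m : ℕ)) : ℤ) = 3 * (m:ℤ) := by push_cast; ring
  have step1 : H974.Pr (fun _ => (1/2 : ℝ)) S (fun F => ∃ x ∈ Kb x0 y0 m,
      H974.RB H974.src H974.tgt (Bb x0 y0 m) (↑F : Set H974.Edg) x) ≤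
      H974.Pr (fun _ => (1/2 : ℝ)) S (fun F => ¬ H974.Blk m (3 * m : ℕ)
        ((H974.trl (-x0) (-y0)).mp F)) := by
    apply H974.Pr_mono ok
    rintro F _ ⟨⟨a, b⟩, hx, ⟨c, d⟩, hb, hr⟩
    rw [u4_mem_Kb] at hx
    simp only at hx
    have hr' : H974.Reach (↑F : Set H974.Edg) (a, b) (c, d) := hr
    have hr2 := (H974.trl (-x0) (-y0)).reach hr'
    rw [← H974.LSym.coe_mp, H974.trl_ψ, H974.trl_ψ] at hr2
    refine u4_not_blk (by omega) (by omega) ?_ hr2 ?_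
    · unfold H974.inR
      simp only
      omega
    · simp only
      have hb' : 3 * (m:ℤ) ≤ |c - x0| ∨ 3 * (m:ℤ) ≤ |d - y0| := hb
      rw [le_abs, le_abs] at hb'
      omega
  have step2 := H974.Pr_shift_le (q := 1/2) (by norm_num) (by norm_num)
    (H974.trl (-x0) (-y0)) S (B := H974.annE m (3 * m))
    (A := fun F => ¬ H974.Blk m (3 * m : ℕ) F)
    (by
      intro F G hFG hF hG
      apply hF
      obtain ⟨g1, g2⟩ := hG
      refine ⟨fun h => g1 ?_, fun h => g2 ?_⟩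
      · exact h.imp (H974.LRc.mono hFG) (H974.LRc.mono hFG)
      · exact h.imp (H974.TBc.mono hFG) (H974.TBc.mono hFG))
    (fun F => not_congr (H974.Blk_local hlt (Finset.Subset.refl _) F))
  have step3 := H974.pr_Blk hm (S := H974.annE m (3 * m)) (Finset.Subset.refl _)
  have step4 := H974.Pr_not (p := fun _ => (1/2 : ℝ)) (H974.annE m (3 * m))
    (H974.Blk m (3 * m : ℕ))
  have step5 : H974.Pr (fun _ => (1/2 : ℝ)) (H974.annE m (3 * m))
      (fun F => ¬ H974.Blk m (3 * m : ℕ) F) ≤ 1 - (1/2 : ℝ)^188 := by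
    rw [step4]
    linarith
  exact step1.trans (step2.trans step5)

theorem annulus_count : ∃ A : ℝ, ∀ (m : ℕ) (x0 y0 : ℤ) (S : Finset H974.Edg),
    H974.Ex (fun _ => (1/2 : ℝ)) S
      (fun F => (H974.NC H974.src H974.tgt (Kb x0 y0 m) (Bb x0 y0 m) (↑F : Set H974.Edg) : ℝ)) ≤ A := by
  have ok := H974.okq (q := 1/2) (by norm_num) (by norm_num)
  refine ⟨2 / (1 - (1 - (1/2 : ℝ)^188))^2 + 81, fun m x0 y0 S => ?_⟩
  have hpos : (0:ℝ) ≤ 2 / (1 - (1 - (1/2 : ℝ)^188))^2 := by positivity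
  rcases Nat.lt_or_ge m 5 with hm | hm
  · have h1 : H974.Ex (fun _ => (1/2 : ℝ)) S
      (fun F => (H974.NC H974.src H974.tgt (Kb x0 y0 m) (Bb x0 y0 m) (↑F : Set H974.Edg) : ℝ)) ≤ 81 := by
      apply H974.Ex_le_of_le ok
      intro F _
      have h2 := H974.NC_le H974.src H974.tgt (Kb x0 y0 m) (Bb x0 y0 m) (↑F : Set H974.Edg)
      rw [u4_card_Kb] at h2
      have h3 : (2 * m + 1) ^ 2 ≤ 81 := by
        have : 2 * m + 1 ≤ 9 := by omega
        calc (2 * m + 1) ^ 2 ≤ 9 ^ 2 := Nat.pow_le_pow_left this 2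
          _ = 81 := by norm_num
      exact_mod_cast h2.trans h3
    linarith
  · have h1 := H974.NC_sq ok S H974.src H974.tgt (Kb x0 y0 m) (Bb x0 y0 m)
      (lam := 1 - (1/2 : ℝ)^188) (by
        have : (0:ℝ) < (1/2 : ℝ)^188 := by positivity
        linarith) (u4_prob hm x0 y0 S)
    have h2 : H974.Ex (fun _ => (1/2 : ℝ)) S
      (fun F => (H974.NC H974.src H974.tgt (Kb x0 y0 m) (Bb x0 y0 m) (↑F : Set H974.Edg) : ℝ)) ≤
      H974.Ex (fun _ => (1/2 : ℝ)) S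
      (fun F => ((H974.NC H974.src H974.tgt (Kb x0 y0 m) (Bb x0 y0 m) (↑F : Set H974.Edg) : ℕ) : ℝ)^2) := by
      apply H974.Ex_mono ok
      intro F _
      have : (H974.NC H974.src H974.tgt (Kb x0 y0 m) (Bb x0 y0 m) (↑F : Set H974.Edg)) ≤
          (H974.NC H974.src H974.tgt (Kb x0 y0 m) (Bb x0 y0 m) (↑F : Set H974.Edg)) ^ 2 :=
        Nat.le_self_pow (by norm_num) _
      exact_mod_cast this
    linarith

end Pool.Agent.H980R2.Unif
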