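import Pool.Agent.H980R2.Cross.Final

/-! Definitions for the uniform estimate of the expected number of crossing clusters. -/

namespace Pool.Agent.H980R2.Unif

open Pool.Agent.H988R2.Perc Pool.Agent.H980R2.Cross MeasureTheory

/-- the rotated rectangle `0 ≤ u - v ≤ N`, `a ≤ u + v ≤ b` -/
def BoxO (N : ℕ) (a b : ℤ) : Set (ℤ × ℤ) :=
  {p | 0 ≤ p.1 - p.2 ∧ p.1 - p.2 ≤ N ∧ a ≤ p.1 + p.2 ∧ p.1 + p.2 ≤ b}

/-- the open cluster of `a` inside `S` -/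
def cluO (S : Set (ℤ × ℤ)) (ω : Conf) (a : ℤ × ℤ) : Set (ℤ × ℤ) :=
  {b | Relation.ReflTransGen (fun x y => OpenAdj ω x y ∧ x ∈ S ∧ y ∈ S) a b}

/-- the open clusters of `S` which meet both sides `u - v = 0` and `u - v = N` -/
def crossO (N : ℕ) (S : Set (ℤ × ℤ)) (ω : Conf) : Set (Set (ℤ × ℤ)) :=
  {C | ∃ a ∈ S, a.1 - a.2 = 0 ∧ C = cluO S ω a ∧ ∃ b ∈ C, b.1 - b.2 = N}

/-- those which meet the line `u + v = c` -/
def touch (N : ℕ) (S : Set (ℤ × ℤ)) (c : ℤ) (ω : Conf) : Set (Set (ℤ × ℤ)) :=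
  {C | C ∈ crossO N S ω ∧ ∃ x ∈ C, x.1 + x.2 = c}

/-- expected number of crossing clusters of the `N × 2M` rectangle -/
noncomputable def ec (N M : ℕ) : ℝ := ∫ ω, ((crossingClusters N (2*M) ω).ncard : ℝ) ∂perc

end Pool.Agent.H980R2.Unif
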