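import Pool.Agent.H980R2.Unif.Defs

/-! U2: translation invariance.

The shift `(u,v) ↦ (u+s, v+s)` maps `BoxO N a b` to `BoxO N (a+2s) (b+2s)`; the measure `perc` is a
product of identical measures, so it is invariant under the shift of the edges
(`MeasureTheory.Measure.infinitePi_map_piCongrLeft`).
`crossingClusters N (2*M) = crossO N (BoxO N 1 (2*M+1))` by definition. -/

namespace Pool.Agent.H980R2.Unif

open Pool.Agent.H988R2.Perc Pool.Agent.H980R2.Cross MeasureTheory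

theorem cross_eq (N K : ℕ) (ω : Conf) :
    crossingClusters N K ω = crossO N (BoxO N 1 (K + 1)) ω := by
  rfl

namespace U2

/-- shift of the vertices -/
def T (s : ℤ) (x : ℤ × ℤ) : ℤ × ℤ := (x.1 + s, x.2 + s)

/-- shift of the edges -/
def eT (s : ℤ) : Edge ≃ Edge where
  toFun e := (e.1 - s, e.2.1 - s, e.2.2)
  invFun e := (e.1 + s, e.2.1 + s, e.2.2)
  left_inv e := by simp
  right_inv e := by simp

/-- shift of the configurations -/
def τ (s : ℤ) (ω : Conf) : Conf := fun e => ω (e.1 + s, e.2.1 + s, e.2.2)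

theorem T_T (s : ℤ) (x : ℤ × ℤ) : T s (T (-s) x) = x := by
  simp [T]

theorem T_T' (s : ℤ) (x : ℤ × ℤ) : T (-s) (T s x) = x := by
  simp [T]

theorem T_inj (s : ℤ) : Function.Injective (T s) :=
  Function.LeftInverse.injective (T_T' s)

theorem adj (s : ℤ) (ω : Conf) (x y : ℤ × ℤ) :
    OpenAdj ω (T s x) (T s y) ↔ OpenAdj (τ s ω) x y := by
  obtain ⟨x1, x2⟩ := x
  obtain ⟨y1, y2⟩ := y
  have e1 : ∀ a b : ℤ, a + s = b + s + 1 ↔ a = b + 1 := fun a b => by omega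
  simp only [OpenAdj, T, τ, Prod.mk.injEq, e1, add_left_inj]

theorem clu (s : ℤ) (ω : Conf) (S S' : Set (ℤ × ℤ)) (h : ∀ x, T s x ∈ S' ↔ x ∈ S) (x : ℤ × ℤ) :
    cluO S' ω (T s x) = T s '' cluO S (τ s ω) x := by
  ext b
  constructor
  · intro hb
    refine ⟨T (-s) b, ?_, T_T s b⟩
    have h1 : Relation.ReflTransGen (fun x y => OpenAdj (τ s ω) x y ∧ x ∈ S ∧ y ∈ S)
        (T (-s) (T s x)) (T (-s) b) := by
      refine Relation.ReflTransGen.lift (T (-s)) ?_ _ _ hb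
      rintro u v ⟨h1, h2, h3⟩
      refine ⟨?_, ?_, ?_⟩
      · rw [← adj, T_T, T_T]
        exact h1
      · rw [← h, T_T]
        exact h2
      · rw [← h, T_T]
        exact h3
    rw [T_T'] at h1
    exact h1
  · rintro ⟨c, hc, rfl⟩
    refine Relation.ReflTransGen.lift (T s) ?_ _ _ hc
    rintro u v ⟨h1, h2, h3⟩
    exact ⟨(adj s ω u v).2 h1, (h u).2 h2, (h v).2 h3⟩

theorem cross (N : ℕ) (s : ℤ) (ω : Conf) (S S' : Set (ℤ × ℤ)) (h : ∀ x, T s x ∈ S' ↔ x ∈ S) :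
    crossO N S' ω = (fun C => T s '' C) '' crossO N S (τ s ω) := by
  have hd : ∀ x, (T s x).1 - (T s x).2 = x.1 - x.2 := by
    intro x
    simp [T]
  ext C
  constructor
  · rintro ⟨a, ha, ha0, hC, b, hb, hbN⟩
    obtain ⟨a0, rfl⟩ : ∃ a0, a = T s a0 := ⟨T (-s) a, (T_T s a).symm⟩
    rw [clu s ω S S' h] at hC
    refine ⟨cluO S (τ s ω) a0, ⟨a0, (h a0).1 ha, ?_, rfl, ?_⟩, hC.symm⟩
    · rw [← hd]
      exact ha0
    · rw [hC] at hb
      obtain ⟨b0, hb0, rfl⟩ := hb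
      exact ⟨b0, hb0, by rw [← hd]; exact hbN⟩
  · rintro ⟨C0, ⟨a, ha, ha0, hC, b, hb, hbN⟩, rfl⟩
    refine ⟨T s a, (h a).2 ha, by rw [hd]; exact ha0, ?_, T s b, ⟨b, hb, rfl⟩,
      by rw [hd]; exact hbN⟩
    rw [clu s ω S S' h, hC]

theorem ncard_shift (N : ℕ) (s : ℤ) (ω : Conf) (S S' : Set (ℤ × ℤ))
    (h : ∀ x, T s x ∈ S' ↔ x ∈ S) :
    (crossO N S' ω).ncard = (crossO N S (τ s ω)).ncard := by
  rw [cross N s ω S S' h]
  exact Set.ncard_image_of_injective _ (Set.image_injective.2 (T_inj s))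

theorem τ_eq (s : ℤ) : τ s = MeasurableEquiv.piCongrLeft (fun _ : Edge => Bool) (eT s) := by
  funext ω i
  obtain ⟨j, rfl⟩ := (eT s).surjective i
  rw [MeasurableEquiv.coe_piCongrLeft, Equiv.piCongrLeft_apply_apply]
  show ω ((eT s).symm (eT s j)) = ω j
  rw [Equiv.symm_apply_apply]

theorem perc_map (s : ℤ) :
    perc.map (MeasurableEquiv.piCongrLeft (fun _ : Edge => Bool) (eT s)) = perc := by
  unfold perc
  exact Measure.infinitePi_map_piCongrLeft (fun _ : Edge => coin) (eT s)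

end U2

theorem integral_shift (N : ℕ) (a b : ℤ) (s : ℤ) :
    ∫ ω, ((crossO N (BoxO N (a + 2*s) (b + 2*s)) ω).ncard : ℝ) ∂perc =
      ∫ ω, ((crossO N (BoxO N a b) ω).ncard : ℝ) ∂perc := by
  have h : ∀ x, U2.T s x ∈ BoxO N (a + 2*s) (b + 2*s) ↔ x ∈ BoxO N a b := by
    intro x
    simp only [BoxO, U2.T, Set.mem_ofPred_eq]
    constructor
    · rintro ⟨h1, h2, h3, h4⟩
      refine ⟨?_, ?_, ?_, ?_⟩ <;> omega
    · rintro ⟨h1, h2, h3, h4⟩
      refine ⟨?_, ?_, ?_, ?_⟩ <;> omega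
  have h1 : ∀ ω, ((crossO N (BoxO N (a + 2*s) (b + 2*s)) ω).ncard : ℝ) =
      ((crossO N (BoxO N a b)
        (MeasurableEquiv.piCongrLeft (fun _ : Edge => Bool) (U2.eT s) ω)).ncard : ℝ) := by
    intro ω
    rw [U2.ncard_shift N s ω _ _ h, U2.τ_eq]
  simp only [h1]
  conv_rhs => rw [← U2.perc_map s]
  rw [integral_map_equiv]

end Pool.Agent.H980R2.Unif
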