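import Pool.Agent.H980R2.Unif.Defs

/-! U1: cutting a rectangle along the line `u + v = c` (deterministic). -/

namespace Pool.Agent.H980R2.Unif

open Pool.Agent.H988R2.Perc Pool.Agent.H980R2.Cross MeasureTheory

theorem boxO_finite (N : ℕ) (a b : ℤ) : (BoxO N a b).Finite := by
  refine Set.Finite.subset (Set.toFinite ((Finset.Icc (-(|a| + |b| + N)) (|a| + |b| + N) ×ˢ
    Finset.Icc (-(|a| + |b| + N)) (|a| + |b| + N) : Finset (ℤ × ℤ)) : Set (ℤ × ℤ))) ?_
  rintro ⟨u, v⟩ ⟨h1, h2, h3, h4⟩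
  simp only at h1 h2 h3 h4
  have ha := neg_abs_le a
  have hb := le_abs_self b
  have ha' := abs_nonneg a
  have hb' := abs_nonneg b
  simp only [Finset.coe_product, Finset.coe_Icc, Set.mem_prod, Set.mem_Icc]
  refine ⟨⟨?_, ?_⟩, ?_, ?_⟩ <;> omega

theorem finite_crossO (N : ℕ) (a b : ℤ) (ω : Conf) : (crossO N (BoxO N a b) ω).Finite := by
  refine Set.Finite.subset ((boxO_finite N a b).image (fun x => cluO (BoxO N a b) ω x)) ?_
  rintro C ⟨x, hx, _, hC, _⟩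
  exact ⟨x, hx, hC.symm⟩

theorem openAdj_sum {ω : Conf} {x y : ℤ × ℤ} (h : OpenAdj ω x y) :
    y.1 + y.2 = x.1 + x.2 + 1 ∨ y.1 + y.2 = x.1 + x.2 - 1 := by
  rcases h with ⟨h, _⟩ | ⟨h, _⟩ | ⟨h, _⟩ | ⟨h, _⟩
  · left; rw [h]; ring
  · right; rw [h]; ring
  · left; rw [h]; ring
  · right; rw [h]; ring

theorem cluO_mono {S T : Set (ℤ × ℤ)} (h : S ⊆ T) (ω : Conf) (a : ℤ × ℤ) :
    cluO S ω a ⊆ cluO T ω a := by
  intro b hb
  have hb' : Relation.ReflTransGen (fun x y => OpenAdj ω x y ∧ x ∈ S ∧ y ∈ S) a b := hb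
  induction hb' with
  | refl => exact Relation.ReflTransGen.refl
  | @tail x y hx hxy ih =>
    exact Relation.ReflTransGen.tail (ih hx) ⟨hxy.1, h hxy.2.1, h hxy.2.2⟩

theorem self_mem_cluO (S : Set (ℤ × ℤ)) (ω : Conf) (a : ℤ × ℤ) : a ∈ cluO S ω a :=
  Relation.ReflTransGen.refl

theorem cluO_subset {S : Set (ℤ × ℤ)} {ω : Conf} {a b : ℤ × ℤ} (ha : a ∈ S)
    (hb : b ∈ cluO S ω a) : b ∈ S := by
  have hb' : Relation.ReflTransGen (fun x y => OpenAdj ω x y ∧ x ∈ S ∧ y ∈ S) a b := hb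
  induction hb' with
  | refl => exact ha
  | tail _ h _ => exact h.2.2

/-- clusters that avoid the separating set `L` agree in `S` and in the part `T` -/
theorem cluO_eq {S T : Set (ℤ × ℤ)} {L : ℤ × ℤ → Prop} {ω : Conf} {a : ℤ × ℤ} (hTS : T ⊆ S)
    (ha : a ∈ T)
    (hstep : ∀ x y, x ∈ T → ¬ L x → OpenAdj ω x y → y ∈ S → y ∈ T)
    (hav : (∀ x ∈ cluO S ω a, ¬ L x) ∨ (∀ x ∈ cluO T ω a, ¬ L x)) :
    cluO S ω a = cluO T ω a := by
  apply Set.Subset.antisymm _ (cluO_mono hTS ω a)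
  intro b hb
  have hb' : Relation.ReflTransGen (fun x y => OpenAdj ω x y ∧ x ∈ S ∧ y ∈ S) a b := hb
  induction hb' with
  | refl => exact self_mem_cluO _ _ _
  | @tail x y hx hxy ih =>
    have hxT : x ∈ cluO T ω a := ih hx
    have hL : ¬ L x := by
      rcases hav with h | h
      · exact h x hx
      · exact h x hxT
    have hx' : x ∈ T := cluO_subset ha hxT
    exact Relation.ReflTransGen.tail hxT ⟨hxy.1, hx', hstep x y hx' hL hxy.1 hxy.2.2⟩

theorem low_subset (N : ℕ) {a c b : ℤ} (hcb : c ≤ b) : BoxO N a c ⊆ BoxO N a b :=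
  fun _ h => ⟨h.1, h.2.1, h.2.2.1, h.2.2.2.trans hcb⟩

theorem up_subset (N : ℕ) {a c b : ℤ} (hac : a ≤ c) : BoxO N c b ⊆ BoxO N a b :=
  fun _ h => ⟨h.1, h.2.1, hac.trans h.2.2.1, h.2.2.2⟩

theorem low_step (N : ℕ) (a c b : ℤ) (ω : Conf) (x y : ℤ × ℤ) (hx : x ∈ BoxO N a c)
    (hL : ¬ (x.1 + x.2 = c)) (h : OpenAdj ω x y) (hy : y ∈ BoxO N a b) : y ∈ BoxO N a c := by
  refine ⟨hy.1, hy.2.1, hy.2.2.1, ?_⟩
  have h4 := hx.2.2.2
  rcases openAdj_sum h with h | h <;> omega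

theorem up_step (N : ℕ) (a c b : ℤ) (ω : Conf) (x y : ℤ × ℤ) (hx : x ∈ BoxO N c b)
    (hL : ¬ (x.1 + x.2 = c)) (h : OpenAdj ω x y) (hy : y ∈ BoxO N a b) : y ∈ BoxO N c b := by
  refine ⟨hy.1, hy.2.1, ?_, hy.2.2.2⟩
  have h3 := hx.2.2.1
  rcases openAdj_sum h with h | h <;> omega

theorem diff_eq (N : ℕ) (a c b : ℤ) (hac : a ≤ c) (hcb : c ≤ b) (ω : Conf) :
    crossO N (BoxO N a b) ω \ touch N (BoxO N a b) c ω =
      (crossO N (BoxO N a c) ω \ touch N (BoxO N a c) c ω) ∪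
        (crossO N (BoxO N c b) ω \ touch N (BoxO N c b) c ω) := by
  ext C
  constructor
  · rintro ⟨hC, ht⟩
    have hav : ∀ x ∈ C, ¬ (x.1 + x.2 = c) := fun x hx h => ht ⟨hC, x, hx, h⟩
    obtain ⟨p, hp, hp0, hCp, z, hz, hzN⟩ := hC
    have hpC : p ∈ C := by rw [hCp]; exact self_mem_cluO _ _ _
    have hpc := hav p hpC
    rcases lt_or_gt_of_ne hpc with hlt | hgt
    · left
      have hpT : p ∈ BoxO N a c := ⟨hp.1, hp.2.1, hp.2.2.1, hlt.le⟩
      have he : cluO (BoxO N a b) ω p = cluO (BoxO N a c) ω p :=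
        cluO_eq (L := fun x => x.1 + x.2 = c) (low_subset N hcb) hpT (low_step N a c b ω)
          (Or.inl fun x hx => hav x (by rw [hCp]; exact hx))
      refine ⟨⟨p, hpT, hp0, by rw [hCp, he], z, hz, hzN⟩, ?_⟩
      rintro ⟨_, x, hx, hxc⟩
      exact hav x hx hxc
    · right
      have hpT : p ∈ BoxO N c b := ⟨hp.1, hp.2.1, hgt.le, hp.2.2.2⟩
      have he : cluO (BoxO N a b) ω p = cluO (BoxO N c b) ω p :=
        cluO_eq (L := fun x => x.1 + x.2 = c) (up_subset N hac) hpT (up_step N a c b ω)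
          (Or.inl fun x hx => hav x (by rw [hCp]; exact hx))
      refine ⟨⟨p, hpT, hp0, by rw [hCp, he], z, hz, hzN⟩, ?_⟩
      rintro ⟨_, x, hx, hxc⟩
      exact hav x hx hxc
  · rintro (⟨hC, ht⟩ | ⟨hC, ht⟩)
    · have hav : ∀ x ∈ C, ¬ (x.1 + x.2 = c) := fun x hx h => ht ⟨hC, x, hx, h⟩
      obtain ⟨p, hp, hp0, hCp, z, hz, hzN⟩ := hC
      have he : cluO (BoxO N a b) ω p = cluO (BoxO N a c) ω p :=
        cluO_eq (L := fun x => x.1 + x.2 = c) (low_subset N hcb) hp (low_step N a c b ω)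
          (Or.inr fun x hx => hav x (by rw [hCp]; exact hx))
      refine ⟨⟨p, low_subset N hcb hp, hp0, by rw [hCp, he], z, hz, hzN⟩, ?_⟩
      rintro ⟨_, x, hx, hxc⟩
      exact hav x hx hxc
    · have hav : ∀ x ∈ C, ¬ (x.1 + x.2 = c) := fun x hx h => ht ⟨hC, x, hx, h⟩
      obtain ⟨p, hp, hp0, hCp, z, hz, hzN⟩ := hC
      have he : cluO (BoxO N a b) ω p = cluO (BoxO N c b) ω p :=
        cluO_eq (L := fun x => x.1 + x.2 = c) (up_subset N hac) hp (up_step N a c b ω)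
          (Or.inr fun x hx => hav x (by rw [hCp]; exact hx))
      refine ⟨⟨p, up_subset N hac hp, hp0, by rw [hCp, he], z, hz, hzN⟩, ?_⟩
      rintro ⟨_, x, hx, hxc⟩
      exact hav x hx hxc

theorem diff_disjoint (N : ℕ) (a c b : ℤ) (ω : Conf) :
    Disjoint (crossO N (BoxO N a c) ω \ touch N (BoxO N a c) c ω)
      (crossO N (BoxO N c b) ω \ touch N (BoxO N c b) c ω) := by
  rw [Set.disjoint_left]
  rintro C ⟨hC, ht⟩ ⟨hC', _⟩
  obtain ⟨p, hp, _, hCp, _⟩ := id hC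
  obtain ⟨p', hp', _, hCp', _⟩ := hC'
  have h1 : p ∈ C := by rw [hCp]; exact self_mem_cluO _ _ _
  have h2 : p ∈ BoxO N c b := by
    rw [hCp'] at h1
    exact cluO_subset hp' h1
  exact ht ⟨hC, p, h1, le_antisymm hp.2.2.2 h2.2.2.1⟩

theorem ncard_split (N : ℕ) (a b c : ℤ) (ω : Conf) :
    (crossO N (BoxO N a b) ω).ncard = (touch N (BoxO N a b) c ω).ncard +
      (crossO N (BoxO N a b) ω \ touch N (BoxO N a b) c ω).ncard := by
  have h := Set.ncard_sdiff_add_ncard_of_subset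
    (s := touch N (BoxO N a b) c ω) (t := crossO N (BoxO N a b) ω) (fun C hC => hC.1)
    (finite_crossO N a b ω)
  omega

theorem cut (N : ℕ) (a c b : ℤ) (hac : a ≤ c) (hcb : c ≤ b) (ω : Conf) :
    |((crossO N (BoxO N a b) ω).ncard : ℝ) - (crossO N (BoxO N a c) ω).ncard
        - (crossO N (BoxO N c b) ω).ncard| ≤
      (touch N (BoxO N a b) c ω).ncard + (touch N (BoxO N a c) c ω).ncard
        + (touch N (BoxO N c b) c ω).ncard := by
  have h1 := ncard_split N a b c ω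
  have h2 := ncard_split N a c c ω
  have h3 := ncard_split N c b c ω
  have h4 : (crossO N (BoxO N a b) ω \ touch N (BoxO N a b) c ω).ncard =
      (crossO N (BoxO N a c) ω \ touch N (BoxO N a c) c ω).ncard +
        (crossO N (BoxO N c b) ω \ touch N (BoxO N c b) c ω).ncard := by
    rw [diff_eq N a c b hac hcb ω]
    exact Set.ncard_union_eq (diff_disjoint N a c b ω)
      ((finite_crossO N a c ω).subset Set.sdiff_subset)
      ((finite_crossO N c b ω).subset Set.sdiff_subset)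
  have e1 : ((crossO N (BoxO N a b) ω).ncard : ℝ) = (touch N (BoxO N a b) c ω).ncard +
      (crossO N (BoxO N a b) ω \ touch N (BoxO N a b) c ω).ncard := by exact_mod_cast h1
  have e2 : ((crossO N (BoxO N a c) ω).ncard : ℝ) = (touch N (BoxO N a c) c ω).ncard +
      (crossO N (BoxO N a c) ω \ touch N (BoxO N a c) c ω).ncard := by exact_mod_cast h2
  have e3 : ((crossO N (BoxO N c b) ω).ncard : ℝ) = (touch N (BoxO N c b) c ω).ncard +
      (crossO N (BoxO N c b) ω \ touch N (BoxO N c b) c ω).ncard := by exact_mod_cast h3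
  have e4 : ((crossO N (BoxO N a b) ω \ touch N (BoxO N a b) c ω).ncard : ℝ) =
      (crossO N (BoxO N a c) ω \ touch N (BoxO N a c) c ω).ncard +
        (crossO N (BoxO N c b) ω \ touch N (BoxO N c b) c ω).ncard := by exact_mod_cast h4
  rw [e1, e2, e3, e4, abs_le]
  have p1 : (0 : ℝ) ≤ (touch N (BoxO N a b) c ω).ncard := Nat.cast_nonneg _
  have p2 : (0 : ℝ) ≤ (touch N (BoxO N a c) c ω).ncard := Nat.cast_nonneg _
  have p3 : (0 : ℝ) ≤ (touch N (BoxO N c b) c ω).ncard := Nat.cast_nonneg _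
  constructor <;> linarith

end Pool.Agent.H980R2.Unif
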