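import Pool.Agent.H980R2.Unif.U4
import Pool.Agent.H980R2.Unif.U1

/-! U5: the expected number of crossing clusters meeting a given line is bounded.

Deterministic part: let `S = BoxO N a b`, let `F` be the set of the open edges with both ends in
`S` (finite).  Put `m = N / 40` (integer division).  The segment `{u+v=c, 0 ≤ u-v ≤ N}` is covered by the boxes
`Kb x0 y0 m` (if `m ≥ 1`) or is a set of at most `N+1 ≤ 40` vertices (if `m = 0`: then `touch` has at most `40` elements) with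
centers `(x_i,y_i)`, `u - v ≈ i m`, `i = 0..100` (consecutive centers differ by about `(m/2,-m/2)`), i.e. at most `101` boxes.
Each cluster of `touch` has a vertex in one of the boxes, and vertices with `u-v=0` and `u-v=N`,
one of which is at sup-distance at least `N/4 ≥ 3m` (since `|u-v|` differs from the center's by at least `N/2`,
so one coordinate differs by at least `N/4`) of the center.  So the cluster is an element of
`TC src tgt (Kb ..) (Bb ..) F` (as a set: `cluO S ω a = clu src tgt F a` by `openAdj_cf`), and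
`ncard touch ≤ ∑_i NC ..`.  Expectation: U3 (`ex_eq`) and U4. -/

namespace Pool.Agent.H980R2.Unif

open Pool.Agent.H988R2.Perc Pool.Agent.H980R2.Cross MeasureTheory

open Classical in
/-- the edges with both ends in the rectangle -/
noncomputable def u5ES (N : ℕ) (a b : ℤ) : Finset H974.Edg :=
  ((Finset.Icc (-(|a| + |b| + N)) (|a| + |b| + N)) ×ˢ
    ((Finset.Icc (-(|a| + |b| + N)) (|a| + |b| + N)) ×ˢ (Finset.univ : Finset Bool))).filter
    (fun e => H974.src e ∈ BoxO N a b ∧ H974.tgt e ∈ BoxO N a b)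

open Classical in
theorem u5_mem_ES {N : ℕ} {a b : ℤ} {e : H974.Edg} :
    e ∈ u5ES N a b ↔ H974.src e ∈ BoxO N a b ∧ H974.tgt e ∈ BoxO N a b := by
  unfold u5ES
  rw [Finset.mem_filter]
  refine ⟨fun h => h.2, fun h => ⟨?_, h⟩⟩
  obtain ⟨⟨h1, h2, h3, h4⟩, _⟩ := h
  simp only [H974.src] at h1 h2 h3 h4
  have ha1 := abs_nonneg a
  have ha2 := le_abs_self a
  have ha3 := neg_abs_le a
  have hb1 := abs_nonneg b
  have hb2 := le_abs_self b
  have hb3 := neg_abs_le b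
  simp only [Finset.mem_product, Finset.mem_Icc, Finset.mem_univ, and_true]
  refine ⟨⟨?_, ?_⟩, ?_, ?_⟩ <;> omega

theorem u5_openAdj {N : ℕ} {a b : ℤ} {ω ω' : Conf}
    (h : ∀ e : Edge, (e.1, e.2.1, !e.2.2) ∈ u5ES N a b → ω e = ω' e) {x y : ℤ × ℤ}
    (hx : x ∈ BoxO N a b) (hy : y ∈ BoxO N a b) (hxy : OpenAdj ω x y) : OpenAdj ω' x y := by
  obtain ⟨x1, x2⟩ := x
  obtain ⟨y1, y2⟩ := y
  unfold OpenAdj at hxy ⊢
  simp only [Prod.mk.injEq] at hxy ⊢
  rcases hxy with ⟨⟨rfl, rfl⟩, ho⟩ | ⟨⟨rfl, rfl⟩, ho⟩ | ⟨⟨rfl, rfl⟩, ho⟩ | ⟨⟨rfl, rfl⟩, ho⟩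
  · refine Or.inl ⟨⟨rfl, rfl⟩, ?_⟩
    rw [← h _ (by rw [u5_mem_ES]; exact ⟨hx, hy⟩)]
    exact ho
  · refine Or.inr (Or.inl ⟨⟨rfl, rfl⟩, ?_⟩)
    rw [← h _ (by rw [u5_mem_ES]; exact ⟨hy, hx⟩)]
    exact ho
  · refine Or.inr (Or.inr (Or.inl ⟨⟨rfl, rfl⟩, ?_⟩))
    rw [← h _ (by rw [u5_mem_ES]; exact ⟨hx, hy⟩)]
    exact ho
  · refine Or.inr (Or.inr (Or.inr ⟨⟨rfl, rfl⟩, ?_⟩))
    rw [← h _ (by rw [u5_mem_ES]; exact ⟨hy, hx⟩)]
    exact ho

theorem u5_clu {N : ℕ} {a b : ℤ} {ω ω' : Conf}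
    (h : ∀ e : Edge, (e.1, e.2.1, !e.2.2) ∈ u5ES N a b → ω e = ω' e) :
    cluO (BoxO N a b) ω = cluO (BoxO N a b) ω' := by
  have h' : ∀ e : Edge, (e.1, e.2.1, !e.2.2) ∈ u5ES N a b → ω' e = ω e := fun e he => (h e he).symm
  have key : (fun x y => OpenAdj ω x y ∧ x ∈ BoxO N a b ∧ y ∈ BoxO N a b) =
      (fun x y => OpenAdj ω' x y ∧ x ∈ BoxO N a b ∧ y ∈ BoxO N a b) := by
    funext x y
    apply propext
    constructor
    · rintro ⟨h1, h2, h3⟩
      exact ⟨u5_openAdj h h2 h3 h1, h2, h3⟩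
    · rintro ⟨h1, h2, h3⟩
      exact ⟨u5_openAdj h' h2 h3 h1, h2, h3⟩
  funext x
  unfold cluO
  rw [key]

theorem u5_cross {N : ℕ} {a b : ℤ} {ω ω' : Conf}
    (h : ∀ e : Edge, (e.1, e.2.1, !e.2.2) ∈ u5ES N a b → ω e = ω' e) :
    crossO N (BoxO N a b) ω = crossO N (BoxO N a b) ω' := by
  unfold crossO
  rw [u5_clu h]

theorem u5_touch {N : ℕ} {a b c : ℤ} {ω ω' : Conf}
    (h : ∀ e : Edge, (e.1, e.2.1, !e.2.2) ∈ u5ES N a b → ω e = ω' e) :
    touch N (BoxO N a b) c ω = touch N (BoxO N a b) c ω' := by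
  unfold touch
  rw [u5_cross h]

theorem integrable_touch (N : ℕ) (a b c : ℤ) :
    Integrable (fun ω => ((touch N (BoxO N a b) c ω).ncard : ℝ)) perc := by
  apply (ex_eq (u5ES N a b) _ _).2
  intro ω ω' h
  rw [u5_touch h]

theorem integrable_cross (N : ℕ) (a b : ℤ) :
    Integrable (fun ω => ((crossO N (BoxO N a b) ω).ncard : ℝ)) perc := by
  apply (ex_eq (u5ES N a b) _ _).2
  intro ω ω' h
  rw [u5_cross h]

/-- for edge sets inside the rectangle the two notions of cluster agree -/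
theorem u5_clu_eq {N : ℕ} {a b : ℤ} {F : Finset H974.Edg} (hF : F ⊆ u5ES N a b) (x : ℤ × ℤ) :
    cluO (BoxO N a b) (cf F) x = H974.clu H974.src H974.tgt (↑F : Set H974.Edg) x := by
  have key : (fun x y => OpenAdj (cf F) x y ∧ x ∈ BoxO N a b ∧ y ∈ BoxO N a b) =
      H974.GAdj H974.src H974.tgt (↑F : Set H974.Edg) := by
    funext x y
    apply propext
    rw [openAdj_cf]
    constructor
    · rintro ⟨⟨e, he, h⟩, _⟩
      exact ⟨e, he, h⟩
    · rintro ⟨e, he, h⟩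
      refine ⟨⟨e, he, h⟩, ?_⟩
      have := u5_mem_ES.1 (hF he)
      rcases h with ⟨rfl, rfl⟩ | ⟨rfl, rfl⟩
      · exact this
      · exact this.symm
  unfold cluO H974.clu H974.GR
  rw [key]

/-- the step of the covering -/
def u5st (N : ℕ) : ℕ := max (N / 40) 1

theorem u5_cover {N : ℕ} {a b c : ℤ} {F : Finset H974.Edg} (hF : F ⊆ u5ES N a b)
    {C : Set (ℤ × ℤ)} (hC : C ∈ touch N (BoxO N a b) c (cf F)) :
    ∃ i ∈ Finset.range 80, C ∈ H974.TC H974.src H974.tgt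
      (Kb ((c + (i : ℤ) * u5st N) / 2) ((c - (i : ℤ) * u5st N) / 2) (N / 40))
      (Bb ((c + (i : ℤ) * u5st N) / 2) ((c - (i : ℤ) * u5st N) / 2) (N / 40))
      (↑F : Set H974.Edg) := by
  obtain ⟨⟨p, hp, hp0, rfl, q, hq, hqN⟩, x, hx, hxc⟩ := hC
  -- `x` lies in the rectangle
  have hxS : x ∈ BoxO N a b := by
    have hx' : Relation.ReflTransGen (fun x y => OpenAdj (cf F) x y ∧ x ∈ BoxO N a b ∧
      y ∈ BoxO N a b) p x := hx
    rcases Relation.ReflTransGen.cases_tail hx' with h | ⟨y, _, h⟩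
    · rw [h]; exact hp
    · exact h.2.2
  obtain ⟨hx1, hx2, _, _⟩ := hxS
  rw [u5_clu_eq hF] at hx hq ⊢
  have hpx : H974.GR H974.src H974.tgt (↑F : Set H974.Edg) p x := hx
  have hpq : H974.GR H974.src H974.tgt (↑F : Set H974.Edg) p q := hq
  -- choice of the index
  set s := u5st N with hs
  have hs1 : 1 ≤ s := le_max_right _ _
  have hsm : (s = N / 40 ∧ 1 ≤ N / 40) ∨ (s = 1 ∧ N / 40 = 0) := by
    rcases Nat.eq_zero_or_pos (N / 40) with h | h
    · right; rw [hs]; unfold u5st; omega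
    · left; rw [hs]; unfold u5st; omega
  obtain ⟨d, hd⟩ : ∃ d : ℕ, (d : ℤ) = x.1 - x.2 := ⟨(x.1 - x.2).toNat, Int.toNat_of_nonneg hx1⟩
  have hdN : d ≤ N := by omega
  have hdm : s * (d / s) + d % s = d := Nat.div_add_mod d s
  have hds : d % s < s := Nat.mod_lt _ hs1
  set i := d / s with hi
  have hi80 : i < 80 := by
    rw [hi, Nat.div_lt_iff_lt_mul (by omega)]
    omega
  refine ⟨i, Finset.mem_range.2 hi80, ?_⟩
  -- linear relation
  obtain ⟨t, ht⟩ : ∃ t : ℤ, t = (i : ℤ) * s := ⟨_, rfl⟩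
  have hts : t = ((s * i : ℕ) : ℤ) := by rw [ht]; push_cast; ring
  obtain ⟨u, hu⟩ : ∃ u : ℕ, u = s * i := ⟨_, rfl⟩
  rw [← hu] at hts hdm
  rw [← ht]
  rw [H974.mem_TC]
  refine ⟨x, ?_, ?_, (H974.clu_eq hpx).symm⟩
  · unfold Kb
    rw [Finset.mem_product, Finset.mem_Icc, Finset.mem_Icc]
    rcases hsm with ⟨h1, h2⟩ | ⟨h1, h2⟩
    · generalize N / 40 = m at *
      refine ⟨⟨?_, ?_⟩, ?_, ?_⟩ <;> omega
    · rw [h2]
      refine ⟨⟨?_, ?_⟩, ?_, ?_⟩ <;> omega
  · -- one of the endpoints is far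
    have hm40 : 40 * (N / 40) ≤ N := by omega
    have key : ∀ z : ℤ × ℤ, (N : ℤ) ≤ 2 * |(z.1 - z.2) - ((c + t) / 2 - (c - t) / 2)| →
        z ∈ Bb ((c + t) / 2) ((c - t) / 2) (N / 40) := by
      intro z hz
      unfold Bb
      rw [Set.mem_ofPred_eq]
      by_contra hcon
      rw [not_or, not_le, not_le] at hcon
      obtain ⟨h1, h2⟩ := hcon
      have h3 : |(z.1 - z.2) - ((c + t) / 2 - (c - t) / 2)| ≤
          |z.1 - (c + t) / 2| + |z.2 - (c - t) / 2| := by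
        have : (z.1 - z.2) - ((c + t) / 2 - (c - t) / 2) =
          (z.1 - (c + t) / 2) - (z.2 - (c - t) / 2) := by ring
        rw [this]
        exact abs_sub _ _
      omega
    have h4 : (N : ℤ) ≤ 2 * |(p.1 - p.2) - ((c + t) / 2 - (c - t) / 2)| ∨
        (N : ℤ) ≤ 2 * |(q.1 - q.2) - ((c + t) / 2 - (c - t) / 2)| := by
      rw [hp0, hqN]
      generalize (c + t) / 2 - (c - t) / 2 = w
      rcases le_total w 0 with hw | hw
      · right
        have := le_abs_self ((N : ℤ) - w)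
        omega
      · rcases le_total (N : ℤ) (2 * w) with hw2 | hw2
        · left
          have := neg_abs_le ((0 : ℤ) - w)
          omega
        · right
          have := le_abs_self ((N : ℤ) - w)
          omega
    rcases h4 with h | h
    · exact ⟨p, key p h, hpx.symm⟩
    · exact ⟨q, key q h, hpx.symm.trans hpq⟩

theorem touch_bound : ∃ A : ℝ, ∀ (N : ℕ) (a b c : ℤ),
    ∫ ω, ((touch N (BoxO N a b) c ω).ncard : ℝ) ∂perc ≤ A := by
  classical
  obtain ⟨A, hA⟩ := annulus_count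
  refine ⟨80 * A, fun N a b c => ?_⟩
  rw [(ex_eq (u5ES N a b) _ (fun ω ω' h => by rw [u5_touch h])).1]
  have hok : H974.Ok (fun _ : H974.Edg => (1 / 2 : ℝ)) := fun e => by norm_num
  calc H974.Ex (fun _ => (1 / 2 : ℝ)) (u5ES N a b)
        (fun F => ((touch N (BoxO N a b) c (cf F)).ncard : ℝ))
      ≤ H974.Ex (fun _ => (1 / 2 : ℝ)) (u5ES N a b)
        (fun F => ∑ i ∈ Finset.range 80, (H974.NC H974.src H974.tgt
          (Kb ((c + (i : ℤ) * u5st N) / 2) ((c - (i : ℤ) * u5st N) / 2) (N / 40))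
          (Bb ((c + (i : ℤ) * u5st N) / 2) ((c - (i : ℤ) * u5st N) / 2) (N / 40))
          (↑F : Set H974.Edg) : ℝ)) := by
        apply H974.Ex_mono hok
        intro F hF
        have h1 : touch N (BoxO N a b) c (cf F) ⊆
            ((Finset.range 80).biUnion (fun i => H974.TC H974.src H974.tgt
              (Kb ((c + (i : ℤ) * u5st N) / 2) ((c - (i : ℤ) * u5st N) / 2) (N / 40))
              (Bb ((c + (i : ℤ) * u5st N) / 2) ((c - (i : ℤ) * u5st N) / 2) (N / 40))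
              (↑F : Set H974.Edg)) : Finset (Set (ℤ × ℤ))) := by
          intro C hC
          obtain ⟨i, hi, h⟩ := u5_cover hF hC
          rw [Finset.mem_coe, Finset.mem_biUnion]
          exact ⟨i, hi, h⟩
        have h2 := Set.ncard_le_ncard h1 (Finset.finite_toSet _)
        rw [Set.ncard_coe_finset] at h2
        have h3 := h2.trans Finset.card_biUnion_le
        exact_mod_cast h3
    _ = ∑ i ∈ Finset.range 80, H974.Ex (fun _ => (1 / 2 : ℝ)) (u5ES N a b)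
        (fun F => (H974.NC H974.src H974.tgt
          (Kb ((c + (i : ℤ) * u5st N) / 2) ((c - (i : ℤ) * u5st N) / 2) (N / 40))
          (Bb ((c + (i : ℤ) * u5st N) / 2) ((c - (i : ℤ) * u5st N) / 2) (N / 40))
          (↑F : Set H974.Edg) : ℝ)) := H974.Ex_sum _ _ _ _
    _ ≤ ∑ i ∈ Finset.range 80, A := Finset.sum_le_sum (fun i _ => hA _ _ _ _)
    _ = 80 * A := by simp

end Pool.Agent.H980R2.Unif
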