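import Pool.Agent.H980R2.Unif.Defs

/-! U6: monotonicity in the width: `ec (N+1) M ≤ ec N M` (helper93).

Deterministic: if `C` is a crossing cluster of the rectangle of width `N+1`, take `a ∈ C` on the left side and
an open path inside the rectangle to the right side; stopped at its first vertex with `u-v = N` it stays in
the rectangle of width `N`, so the cluster of `a` in the narrow rectangle is a crossing cluster, contained
in `C`.  Distinct `C` are disjoint, so `C ↦` (this cluster) is injective, and `ncard` decreases. -/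

namespace Pool.Agent.H980R2.Unif

open Pool.Agent.H988R2.Perc Pool.Agent.H980R2.Cross MeasureTheory

theorem U6_openAdj_symm {ω : Conf} {a b : ℤ × ℤ} (h : OpenAdj ω a b) : OpenAdj ω b a := by
  unfold OpenAdj at *
  tauto

theorem U6_openAdj_diff {ω : Conf} {a b : ℤ × ℤ} (h : OpenAdj ω a b) :
    b.1 - b.2 ≤ a.1 - a.2 + 1 := by
  rcases h with ⟨h, _⟩ | ⟨h, _⟩ | ⟨h, _⟩ | ⟨h, _⟩
  · rw [h]; show a.1 + 1 - a.2 ≤ _; omega
  · rw [h]; show _ ≤ b.1 + 1 - b.2 + 1; omega
  · rw [h]; show a.1 - (a.2 + 1) ≤ _; omega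
  · rw [h]; show _ ≤ b.1 - (b.2 + 1) + 1; omega

theorem U6_box_mono (N K : ℕ) : Box N K ⊆ Box (N + 1) K := by
  rintro p ⟨h1, h2, h3, h4⟩
  refine ⟨h1, ?_, h3, h4⟩
  push_cast
  omega

theorem U6_box_of {N K : ℕ} {p : ℤ × ℤ} (h : p ∈ Box (N + 1) K) (hp : p.1 - p.2 ≤ N) :
    p ∈ Box N K := ⟨h.1, hp, h.2.2.1, h.2.2.2⟩

theorem U6_cluster_symm {N K : ℕ} {ω : Conf} {a b : ℤ × ℤ} (h : b ∈ boxCluster N K ω a) :
    a ∈ boxCluster N K ω b := by
  have hs : Std.Symm (fun x y => OpenAdj ω x y ∧ x ∈ Box N K ∧ y ∈ Box N K) :=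
    ⟨fun x y h => ⟨U6_openAdj_symm h.1, h.2.2, h.2.1⟩⟩
  have h' : Relation.ReflTransGen
      (fun x y => OpenAdj ω x y ∧ x ∈ Box N K ∧ y ∈ Box N K) a b := h
  show Relation.ReflTransGen (fun x y => OpenAdj ω x y ∧ x ∈ Box N K ∧ y ∈ Box N K) b a
  induction h' with
  | refl => exact Relation.ReflTransGen.refl
  | tail _ hxy ih => exact Relation.ReflTransGen.head (hs.symm _ _ hxy) (ih (by assumption))

theorem U6_cluster_eq {N K : ℕ} {ω : Conf} {a b : ℤ × ℤ} (h : b ∈ boxCluster N K ω a) :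
    boxCluster N K ω a = boxCluster N K ω b := by
  ext c
  constructor
  · intro hc
    exact Relation.ReflTransGen.trans (U6_cluster_symm h) hc
  · intro hc
    exact Relation.ReflTransGen.trans h hc

theorem U6_cluster_mono {N K : ℕ} {ω : Conf} {a : ℤ × ℤ} :
    boxCluster N K ω a ⊆ boxCluster (N + 1) K ω a := by
  intro b hb
  have hb' : Relation.ReflTransGen
      (fun x y => OpenAdj ω x y ∧ x ∈ Box N K ∧ y ∈ Box N K) a b := hb
  show Relation.ReflTransGen
      (fun x y => OpenAdj ω x y ∧ x ∈ Box (N + 1) K ∧ y ∈ Box (N + 1) K) a b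
  exact Relation.ReflTransGen.mono
    (fun x y h => ⟨h.1, U6_box_mono N K h.2.1, U6_box_mono N K h.2.2⟩) a b hb'

theorem U6_reach {N K : ℕ} {ω : Conf} {a b : ℤ × ℤ} (ha : a.1 - a.2 = 0)
    (h : b ∈ boxCluster (N + 1) K ω a) (hb : b.1 - b.2 = N + 1) :
    ∃ b' ∈ boxCluster N K ω a, b'.1 - b'.2 = N := by
  have key : ∀ c, Relation.ReflTransGen
      (fun x y => OpenAdj ω x y ∧ x ∈ Box (N + 1) K ∧ y ∈ Box (N + 1) K) a c →
      (c ∈ boxCluster N K ω a ∧ c.1 - c.2 ≤ N) ∨ ∃ b' ∈ boxCluster N K ω a, b'.1 - b'.2 = N := by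
    intro c hc
    induction hc with
    | refl => exact Or.inl ⟨Relation.ReflTransGen.refl, by omega⟩
    | @tail x y _ hxy ih =>
      rcases ih with ⟨ih1, ih2⟩ | ih
      · obtain ⟨h1, h2, h3⟩ := hxy
        by_cases hy : y.1 - y.2 ≤ N
        · exact Or.inl ⟨Relation.ReflTransGen.tail ih1
            ⟨h1, U6_box_of h2 ih2, U6_box_of h3 hy⟩, hy⟩
        · have := U6_openAdj_diff h1
          exact Or.inr ⟨x, ih1, by omega⟩
      · exact Or.inr ih
  rcases key b h with ⟨_, h2⟩ | h2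
  · omega
  · exact h2

theorem U6_box_finite (N K : ℕ) : (Box N K).Finite := by
  refine Set.Finite.subset
    ((Set.finite_Icc (-(N + K + 1 : ℤ)) (N + K + 1)).prod
      (Set.finite_Icc (-(N + K + 1 : ℤ)) (N + K + 1))) ?_
  rintro p ⟨h1, h2, h3, h4⟩
  refine ⟨⟨?_, ?_⟩, ⟨?_, ?_⟩⟩ <;> omega

theorem U6_cross_finite (N K : ℕ) (ω : Conf) : (crossingClusters N K ω).Finite := by
  refine Set.Finite.subset ((U6_box_finite N K).image (fun a => boxCluster N K ω a)) ?_
  rintro C ⟨a, ha, _, hC, _⟩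
  exact ⟨a, ha, hC.symm⟩

theorem cross_anti (N K : ℕ) (ω : Conf) :
    (crossingClusters (N+1) K ω).ncard ≤ (crossingClusters N K ω).ncard := by
  classical
  let g : Set (ℤ × ℤ) → (ℤ × ℤ) := fun C =>
    if h : C ∈ crossingClusters (N + 1) K ω then h.choose else (0, 0)
  have hg : ∀ C ∈ crossingClusters (N + 1) K ω, g C ∈ Box (N + 1) K ∧ (g C).1 - (g C).2 = 0 ∧
      C = boxCluster (N + 1) K ω (g C) ∧ ∃ b ∈ C, b.1 - b.2 = ((N + 1 : ℕ) : ℤ) := by
    intro C hC
    have : g C = hC.choose := dif_pos hC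
    rw [this]
    exact hC.choose_spec
  refine Set.ncard_le_ncard_of_injOn (fun C => boxCluster N K ω (g C)) ?_ ?_
    (U6_cross_finite N K ω)
  · intro C hC
    obtain ⟨h1, h2, h3, b, hb, hb2⟩ := hg C hC
    rw [h3] at hb
    push_cast at hb2
    obtain ⟨b', hb', hb'2⟩ := U6_reach h2 hb hb2
    exact ⟨g C, U6_box_of h1 (by omega), h2, rfl, b', hb', hb'2⟩
  · intro C hC C' hC' hCC
    obtain ⟨_, _, h3, _⟩ := hg C hC
    obtain ⟨_, _, h3', _⟩ := hg C' hC'
    have h4 : g C' ∈ boxCluster N K ω (g C) := by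
      have : g C' ∈ boxCluster N K ω (g C') := Relation.ReflTransGen.refl
      have hCC' : boxCluster N K ω (g C) = boxCluster N K ω (g C') := hCC
      rw [hCC']
      exact this
    have h5 := U6_cluster_eq (U6_cluster_mono h4)
    rw [h3, h3', h5]

end Pool.Agent.H980R2.Unif
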