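import Pool.Agent.H980R2.Cross.T16

/-! U7: quantitative asymptotics of `rho` at odd `N` (real analysis; see T16 for the notation and the
product asymptotics).

With `r m = RR (2m+1)`, `P N = 27N²+27N+21/2`: `u m = (r m)²/P(2m+1)` satisfies `u m → 1` and
`u (m+1)/u m = 1 + O(m^(-4))`; precisely, numerator minus denominator of the rational function
`((6m+8)(6m+10))² P(2m+1) / (((6m+5)(6m+7))² P(2m+3))` is `6075/2 + 2430 m > 0`, so `u` is increasing to
`1` and `1 - u m ≤ C m^(-3)`.  So `(r m)² = P(N) + O(1/N)`, `rho N = ((r m)² - 27N² - 27N - 6)/r m`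
`= (9/2 + O(1/N))/r m`, and `r m = 3√3 N (1 + O(1/N))`, hence `|N rho N - √3/2| ≤ C/N`.
(An `O(1)` bound `|(r m)² - P(N)| ≤ C/N` suffices.) -/

namespace Pool.Agent.H980R2.Unif

open Pool.Agent.H988R2.Perc Pool.Agent.H980R2.Cross

theorem le_of_sq_le_sq_of_nonneg' {a b : ℝ} (hb : 0 ≤ b) (h : a ^ 2 ≤ b ^ 2) : a ≤ b :=
  abs_le_of_sq_le_sq' h hb |>.2

theorem rho_rate : ∃ C : ℝ, ∀ N : ℕ, Odd N →
    |(N : ℝ) * Cross.rho N - Real.sqrt 3 / 2| ≤ C / N := by
  refine ⟨2, ?_⟩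
  rintro N ⟨m, rfl⟩
  have hs : (0:ℝ) < Real.sqrt 3 := by positivity
  have hs2 : Real.sqrt 3 ^ 2 = 3 := Real.sq_sqrt (by norm_num)
  have hs1 : (1:ℝ) ≤ Real.sqrt 3 := by nlinarith
  have hs3 : Real.sqrt 3 ≤ 2 := by nlinarith
  have hr := T16.r_pos m
  have hm : (0:ℝ) ≤ (m:ℝ) := Nat.cast_nonneg m
  have hle := T16.sq_le m
  have hge := T16.le_sq m
  have hd1 : 1 / ((m:ℝ)+1) ≤ 1 := by
    rw [div_le_one (by positivity)]
    linarith
  have hPN : T16.P m = 27 * (2*(m:ℝ)+1)^2 + 27 * (2*(m:ℝ)+1) + 21/2 := by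
    unfold T16.P; ring
  have hrho : Cross.rho (2*m+1) = ((T16.r m)^2 - (T16.P m - 9/2)) / T16.r m := by
    unfold Cross.rho
    change T16.r m - 3 * (3 * ((2*m+1 : ℕ):ℝ) + 1) * (3 * ((2*m+1 : ℕ):ℝ) + 2) / T16.r m = _
    unfold T16.P
    push_cast
    field_simp
    ring
  have hcast : ((2*m+1 : ℕ) : ℝ) = 2*(m:ℝ)+1 := by push_cast; ring
  rw [hrho, hcast]
  set n : ℝ := 2*(m:ℝ)+1 with hn
  have hn1 : (1:ℝ) ≤ n := by rw [hn]; linarith
  -- `3√3 n ≤ r ≤ 3√3 (n+1)`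
  have hlow : 3 * Real.sqrt 3 * n ≤ T16.r m := by
    apply le_of_sq_le_sq_of_nonneg' hr.le
    rw [mul_pow, mul_pow, hs2]
    nlinarith
  have hup : T16.r m ≤ 3 * Real.sqrt 3 * (n+1) := by
    apply le_of_sq_le_sq_of_nonneg' (by positivity)
    rw [mul_pow, mul_pow, hs2]
    nlinarith
  set δ : ℝ := T16.P m - (T16.r m)^2 with hδ
  have hδ0 : 0 ≤ δ := by rw [hδ]; linarith
  have hδ1 : δ ≤ 2 / n := by
    have : 1 / ((m:ℝ)+1) ≤ 2 / n := by
      rw [div_le_div_iff₀ (by positivity) (by positivity), hn]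
      linarith
    rw [hδ]; linarith
  have hnum : (T16.r m)^2 - (T16.P m - 9/2) = 9/2 - δ := by rw [hδ]; ring
  rw [hnum]
  have hn0 : 0 < n := by linarith
  rw [abs_le]
  constructor
  · -- lower bound
    have h1 : n * ((9/2 - δ) / T16.r m) ≥ n * ((9/2 - 2/n) / (3 * Real.sqrt 3 * (n+1))) := by
      apply mul_le_mul_of_nonneg_left _ hn0.le
      have h9 : 0 ≤ 9/2 - 2/n := by
        have : 2 / n ≤ 2 := by rw [div_le_iff₀ hn0]; linarith
        linarith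
      calc (9/2 - 2/n) / (3 * Real.sqrt 3 * (n+1)) ≤ (9/2 - 2/n) / T16.r m :=
            div_le_div_of_nonneg_left h9 hr hup
        _ ≤ (9/2 - δ) / T16.r m := by
            apply div_le_div_of_nonneg_right _ hr.le
            linarith
    have h2 : n * ((9/2 - 2/n) / (3 * Real.sqrt 3 * (n+1))) - Real.sqrt 3 / 2 ≥ -(2/n) := by
      have e : n * ((9/2 - 2/n) / (3 * Real.sqrt 3 * (n+1))) - Real.sqrt 3 / 2 + 2/n =
          (2 * (2 * n + 2) * (3 * Real.sqrt 3) + n * (9 * n - 4) - (Real.sqrt 3)^2 * 3 * n * (n+1))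
            / (2 * n * (3 * Real.sqrt 3 * (n+1))) := by
        field_simp
        ring
      have : 0 ≤ n * ((9/2 - 2/n) / (3 * Real.sqrt 3 * (n+1))) - Real.sqrt 3 / 2 + 2/n := by
        rw [e, hs2]
        apply div_nonneg _ (by positivity)
        nlinarith
      linarith
    linarith
  · have h1 : n * ((9/2 - δ) / T16.r m) ≤ Real.sqrt 3 / 2 := by
      rw [mul_div_assoc', div_le_iff₀ hr]
      nlinarith
    have h2 : 0 ≤ 2 / n := by positivity
    linarith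

end Pool.Agent.H980R2.Unif
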