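import Mathlib

/-! U8: almost additive sequences (Hammersley / Fekete).

`x ↦ a x + A` is subadditive and `x ↦ a x - A` is superadditive; `Subadditive.tendsto_lim` and
`Subadditive.lim_le_div`; or directly: `|a (k n) - k a n| ≤ (k-1) A` by induction, divide by `k n`, `k → ∞`. -/

namespace Pool.Agent.H980R2.Unif

open Filter Topology

theorem almost_additive (a : ℕ → ℝ) (A r : ℝ)
    (h : ∀ m n, |a (m + n) - a m - a n| ≤ A)
    (hr : Tendsto (fun n : ℕ => a n / n) atTop (𝓝 r)) (n : ℕ) :
    |a n - r * n| ≤ A := by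
  have hA : 0 ≤ A := (abs_nonneg _).trans (h 0 0)
  rcases Nat.eq_zero_or_pos n with rfl | hn
  · have h0 := h 0 0
    simp only [add_zero, sub_self, zero_sub, abs_neg] at h0
    simpa using h0
  have hk : ∀ k : ℕ, |a ((k + 1) * n) - (k + 1) * a n| ≤ k * A := by
    intro k
    induction k with
    | zero => simp
    | succ k ih =>
      have e : a ((k + 1 + 1) * n) - (((k + 1 : ℕ) : ℝ) + 1) * a n =
          (a ((k + 1) * n + n) - a ((k + 1) * n) - a n) + (a ((k + 1) * n) - (k + 1) * a n) := by
        have : (k + 1 + 1) * n = (k + 1) * n + n := by ring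
        rw [this]
        push_cast
        ring
      rw [e]
      refine (abs_add_le _ _).trans ?_
      have h1 := h ((k + 1) * n) n
      push_cast
      linarith
  have hn0 : (0 : ℝ) < n := by exact_mod_cast hn
  have ht : Tendsto (fun k : ℕ => (k + 1) * n) atTop atTop :=
    tendsto_atTop_mono (fun k => (Nat.le_succ k).trans (Nat.le_mul_of_pos_right _ hn))
      (tendsto_id (α := ℕ))
  have ht2 := (hr.comp ht).mul_const (n : ℝ)
  have ht3 : Tendsto (fun k : ℕ => |a n - ((fun n : ℕ => a n / n) ∘ fun k : ℕ => (k + 1) * n) k * n|)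
      atTop (𝓝 |a n - r * n|) := (ht2.const_sub (a n)).abs
  refine le_of_tendsto ht3 (Eventually.of_forall fun k => ?_)
  have hk0 : (0 : ℝ) < (k : ℝ) + 1 := by positivity
  have e : a n - ((fun n : ℕ => a n / n) ∘ fun k : ℕ => (k + 1) * n) k * n =
      -(a ((k + 1) * n) - (k + 1) * a n) / (k + 1) := by
    simp only [Function.comp]
    push_cast
    field_simp
    ring
  rw [e, abs_div, abs_neg, abs_of_pos hk0, div_le_iff₀ hk0]
  refine (hk k).trans ?_
  nlinarith

end Pool.Agent.H980R2.Unif
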