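import Pool.Agent.H980R2.Cross.Main
import Pool.Agent.H980R2.Unif.U2
import Pool.Agent.H980R2.Unif.U5
import Pool.Agent.H980R2.Unif.U6
import Pool.Agent.H980R2.Unif.U7
import Pool.Agent.H980R2.Unif.U8

/-! Uniform estimate of the expected number of crossing clusters. -/

namespace Pool.Agent.H980R2.Unif

open Pool.Agent.H988R2.Perc Pool.Agent.H980R2.Cross MeasureTheory Filter Topology

theorem ec_cut : ∃ A : ℝ, 0 ≤ A ∧ ∀ N m n : ℕ, |ec N (m + n) - ec N m - ec N n| ≤ A := by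
  obtain ⟨A, hA⟩ := touch_bound
  refine ⟨3 * |A|, by positivity, fun N m n => ?_⟩
  have e1 : ec N (m + n) = ∫ ω, ((crossO N (BoxO N 1 (2 * (m + n) + 1)) ω).ncard : ℝ) ∂perc := by
    unfold ec
    simp only [cross_eq]
    push_cast
    rfl
  have e2 : ec N m = ∫ ω, ((crossO N (BoxO N 1 (2 * m + 1)) ω).ncard : ℝ) ∂perc := by
    unfold ec
    simp only [cross_eq]
    push_cast
    rfl
  have e3 : ec N n =
      ∫ ω, ((crossO N (BoxO N (2 * m + 1) (2 * (m + n) + 1)) ω).ncard : ℝ) ∂perc := by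
    have h1 := integral_shift N 1 (2 * n + 1) m
    have h2 : (1 : ℤ) + 2 * (m : ℤ) = 2 * m + 1 := by ring
    have h3 : (2 * (n : ℤ) + 1) + 2 * (m : ℤ) = 2 * (m + n) + 1 := by ring
    rw [h2, h3] at h1
    rw [h1]
    unfold ec
    simp only [cross_eq]
    push_cast
    rfl
  rw [e1, e2, e3]
  have i1 := integrable_cross N 1 (2 * (m + n) + 1)
  have i2 := integrable_cross N 1 (2 * m + 1)
  have i3 := integrable_cross N (2 * m + 1) (2 * (m + n) + 1)
  have t1 := integrable_touch N 1 (2 * (m + n) + 1) (2 * m + 1)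
  have t2 := integrable_touch N 1 (2 * m + 1) (2 * m + 1)
  have t3 := integrable_touch N (2 * m + 1) (2 * (m + n) + 1) (2 * m + 1)
  have h4 := fun ω => cut N 1 (2 * m + 1) (2 * (m + n) + 1) (by linarith [Int.natCast_nonneg m]) (by linarith [Int.natCast_nonneg n]) ω
  have u1 : ∀ ω, ((crossO N (BoxO N 1 (2 * (m + n) + 1)) ω).ncard : ℝ)
      - (crossO N (BoxO N 1 (2 * m + 1)) ω).ncard
      - (crossO N (BoxO N (2 * m + 1) (2 * (m + n) + 1)) ω).ncard ≤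
      (touch N (BoxO N 1 (2 * (m + n) + 1)) (2 * m + 1) ω).ncard
        + (touch N (BoxO N 1 (2 * m + 1)) (2 * m + 1) ω).ncard
        + (touch N (BoxO N (2 * m + 1) (2 * (m + n) + 1)) (2 * m + 1) ω).ncard :=
    fun ω => (abs_le.mp (h4 ω)).2
  have u2 : ∀ ω, -((touch N (BoxO N 1 (2 * (m + n) + 1)) (2 * m + 1) ω).ncard
        + (touch N (BoxO N 1 (2 * m + 1)) (2 * m + 1) ω).ncard
        + (touch N (BoxO N (2 * m + 1) (2 * (m + n) + 1)) (2 * m + 1) ω).ncard : ℝ) ≤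
      ((crossO N (BoxO N 1 (2 * (m + n) + 1)) ω).ncard : ℝ)
      - (crossO N (BoxO N 1 (2 * m + 1)) ω).ncard
      - (crossO N (BoxO N (2 * m + 1) (2 * (m + n) + 1)) ω).ncard :=
    fun ω => (abs_le.mp (h4 ω)).1
  have v1 := integral_mono ((i1.sub i2).sub i3) ((t1.add t2).add t3) u1
  have v2 := integral_mono ((t1.add t2).add t3).neg ((i1.sub i2).sub i3) u2
  have w1 : ∫ ω, (((crossO N (BoxO N 1 (2 * (m + n) + 1)) ω).ncard : ℝ)
      - (crossO N (BoxO N 1 (2 * m + 1)) ω).ncard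
      - (crossO N (BoxO N (2 * m + 1) (2 * (m + n) + 1)) ω).ncard) ∂perc =
      ∫ ω, ((crossO N (BoxO N 1 (2 * (m + n) + 1)) ω).ncard : ℝ) ∂perc
      - ∫ ω, ((crossO N (BoxO N 1 (2 * m + 1)) ω).ncard : ℝ) ∂perc
      - ∫ ω, ((crossO N (BoxO N (2 * m + 1) (2 * (m + n) + 1)) ω).ncard : ℝ) ∂perc := by
    have := integral_sub (i1.sub i2) i3
    simp only [Pi.sub_apply] at this
    rw [this, integral_sub i1 i2]
  have w2 : ∫ ω, (((touch N (BoxO N 1 (2 * (m + n) + 1)) (2 * m + 1) ω).ncard : ℝ)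
        + (touch N (BoxO N 1 (2 * m + 1)) (2 * m + 1) ω).ncard
        + (touch N (BoxO N (2 * m + 1) (2 * (m + n) + 1)) (2 * m + 1) ω).ncard) ∂perc =
      ∫ ω, ((touch N (BoxO N 1 (2 * (m + n) + 1)) (2 * m + 1) ω).ncard : ℝ) ∂perc
      + ∫ ω, ((touch N (BoxO N 1 (2 * m + 1)) (2 * m + 1) ω).ncard : ℝ) ∂perc
      + ∫ ω, ((touch N (BoxO N (2 * m + 1) (2 * (m + n) + 1)) (2 * m + 1) ω).ncard : ℝ) ∂perc := by
    have := integral_add (t1.add t2) t3
    simp only [Pi.add_apply] at this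
    rw [this, integral_add t1 t2]
  have h5 := hA N 1 (2 * (m + n) + 1) (2 * m + 1)
  have h6 := hA N 1 (2 * m + 1) (2 * m + 1)
  have h7 := hA N (2 * m + 1) (2 * (m + n) + 1) (2 * m + 1)
  have h8 := le_abs_self A
  simp only [Pi.sub_apply, Pi.add_apply, Pi.neg_apply] at v1 v2
  rw [integral_neg] at v2
  rw [w1, w2] at v1 v2
  rw [abs_le]
  constructor <;> linarith

theorem ec_anti (N M : ℕ) : ec (N+1) M ≤ ec N M := by
  unfold ec
  refine integral_mono ?_ ?_ (fun ω => Nat.cast_le.mpr (cross_anti N (2*M) ω))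
  · have := integrable_cross (N+1) 1 ((2*M : ℕ) + 1)
    simp_rw [← cross_eq] at this
    exact this
  · have := integrable_cross N 1 ((2*M : ℕ) + 1)
    simp_rw [← cross_eq] at this
    exact this

theorem ec_odd : ∃ A : ℝ, 0 ≤ A ∧ ∀ N M : ℕ, Odd N →
    |ec N M - Real.sqrt 3 / 2 * (M / N)| ≤ A * (1 + M / (N:ℝ)^2) := by
  obtain ⟨A, hA0, hA⟩ := ec_cut
  obtain ⟨C, hC⟩ := rho_rate
  refine ⟨A + |C|, by positivity, fun N M hN => ?_⟩
  have hNpos : (0:ℝ) < N := by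
    have : 0 < N := hN.pos
    exact_mod_cast this
  have h1 := almost_additive (ec N) A (Cross.rho N) (fun m n => hA N m n) (Cross.main.1 N hN) M
  have h2 := hC N hN
  have h3 : ec N M - Real.sqrt 3 / 2 * (M / N) =
      (ec N M - Cross.rho N * M) + ((N : ℝ) * Cross.rho N - Real.sqrt 3 / 2) * (M / N) := by
    field_simp
    ring
  rw [h3]
  refine (abs_add_le _ _).trans ?_
  rw [abs_mul, abs_of_nonneg (by positivity : (0:ℝ) ≤ M / N)]
  have h4 : |(N : ℝ) * Cross.rho N - Real.sqrt 3 / 2| * (M / N) ≤ |C| * (M / (N:ℝ)^2) := by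
    have h5 : C / N ≤ |C| / N := by gcongr; exact le_abs_self C
    calc |(N : ℝ) * Cross.rho N - Real.sqrt 3 / 2| * (M / N) ≤ (|C| / N) * (M / N) := by
          gcongr; exact h2.trans h5
      _ = |C| * (M / (N:ℝ)^2) := by field_simp
  have h6 : (0:ℝ) ≤ M / (N:ℝ)^2 := by positivity
  have h7 : 0 ≤ |C| := abs_nonneg C
  nlinarith [mul_nonneg hA0 h6]

theorem main_unif : ∃ A : ℝ, ∀ N M : ℕ, 1 ≤ N →
    |ec N M - Real.sqrt 3 / 2 * (M / N)| ≤ A * (1 + M / (N:ℝ)^2) := by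
  obtain ⟨A, hA0, hA⟩ := ec_odd
  refine ⟨4 * A + 2, fun N M hN => ?_⟩
  rcases Nat.even_or_odd N with he | ho
  · -- even width: sandwich between the two neighbouring odd widths
    obtain ⟨j, rfl⟩ : ∃ j, N = j + 1 := ⟨N - 1, by omega⟩
    have hodd1 : Odd j := by
      rcases Nat.even_or_odd j with h | h
      · exact absurd he (by rw [Nat.not_even_iff_odd]; exact h.add_one)
      · exact h
    have hodd2 : Odd (j + 1 + 1) := he.add_one
    have b1 := hA j M hodd1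
    have b2 := hA (j+1+1) M hodd2
    have m1 := ec_anti j M
    have m2 := ec_anti (j+1) M
    have hj : (1:ℝ) ≤ j := by exact_mod_cast hodd1.pos
    have hM : (0:ℝ) ≤ M := Nat.cast_nonneg M
    have hs0 : 0 ≤ Real.sqrt 3 := Real.sqrt_nonneg 3
    have hs : Real.sqrt 3 / 2 ≤ 1 := by
      have : Real.sqrt 3 ≤ 2 := by
        rw [Real.sqrt_le_left (by norm_num)]; norm_num
      linarith
    push_cast at *
    have c1 : (M:ℝ) / j - M / (j+1) ≤ 2 * (M / ((j:ℝ)+1)^2) := by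
      rw [div_sub_div _ _ (by positivity) (by positivity), ← mul_div_assoc,
        div_le_div_iff₀ (by positivity) (by positivity)]
      nlinarith [mul_nonneg hM (by linarith : (0:ℝ) ≤ j - 1), mul_nonneg hM (sq_nonneg ((j:ℝ)-1)), mul_nonneg hM (mul_nonneg (by linarith : (0:ℝ) ≤ j - 1) (by linarith : (0:ℝ) ≤ j - 1))]
    have c2 : (M:ℝ) / (j+1) - M / (j+1+1) ≤ M / ((j:ℝ)+1)^2 := by
      rw [div_sub_div _ _ (by positivity) (by positivity),
        div_le_div_iff₀ (by positivity) (by positivity)]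
      nlinarith [mul_nonneg hM (by linarith : (0:ℝ) ≤ j), mul_nonneg hM (sq_nonneg (j:ℝ))]
    have c3 : (M:ℝ) / (j:ℝ)^2 ≤ 4 * (M / ((j:ℝ)+1)^2) := by
      rw [← mul_div_assoc, div_le_div_iff₀ (by positivity) (by positivity)]
      nlinarith [mul_nonneg hM (by linarith : (0:ℝ) ≤ j - 1), mul_nonneg hM (mul_nonneg (by linarith : (0:ℝ) ≤ j - 1) (by linarith : (0:ℝ) ≤ j))]
    have c4 : (M:ℝ) / ((j:ℝ)+1+1)^2 ≤ M / ((j:ℝ)+1)^2 := by
      gcongr; linarith
    have d0 : 0 ≤ (M:ℝ) / ((j:ℝ)+1)^2 := by positivity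
    have e0 : 0 ≤ (M:ℝ) / j - M / (j+1) := by
      rw [sub_nonneg]; gcongr; linarith
    have e1 : 0 ≤ (M:ℝ) / (j+1) - M / (j+1+1) := by
      rw [sub_nonneg]; gcongr; linarith
    have f1 : Real.sqrt 3 / 2 * ((M:ℝ) / j - M / (j+1)) ≤ 2 * (M / ((j:ℝ)+1)^2) := by
      calc Real.sqrt 3 / 2 * ((M:ℝ) / j - M / (j+1)) ≤ 1 * ((M:ℝ) / j - M / (j+1)) := by gcongr
        _ ≤ _ := by rw [one_mul]; exact c1
    have f2 : Real.sqrt 3 / 2 * ((M:ℝ) / (j+1) - M / (j+1+1)) ≤ M / ((j:ℝ)+1)^2 := by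
      calc Real.sqrt 3 / 2 * ((M:ℝ) / (j+1) - M / (j+1+1)) ≤ 1 * ((M:ℝ) / (j+1) - M / (j+1+1)) := by gcongr
        _ ≤ _ := by rw [one_mul]; exact c2
    have g1 := (abs_le.mp b1).2
    have g2 := (abs_le.mp b2).1
    have k1 : A * (1 + (M:ℝ) / (j:ℝ)^2) ≤ A * (1 + 4 * (M / ((j:ℝ)+1)^2)) := by gcongr
    have k2 : A * (1 + (M:ℝ) / ((j:ℝ)+1+1)^2) ≤ A * (1 + M / ((j:ℝ)+1)^2) := by gcongr
    rw [abs_le]
    constructor
    · nlinarith [mul_nonneg hA0 d0]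
    · nlinarith [mul_nonneg hA0 d0]
  · have b := hA N M ho
    refine b.trans ?_
    have d0 : 0 ≤ (M:ℝ) / (N:ℝ)^2 := by positivity
    nlinarith [mul_nonneg hA0 d0]

end Pool.Agent.H980R2.Unif
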