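import Pool.Agent.H980R2.Unif.Main

/-! All lengths `K` (both parities). -/

namespace Pool.Agent.H980R2.Unif

open Pool.Agent.H988R2.Perc Pool.Agent.H980R2.Cross MeasureTheory Filter Topology

/-- expected number of crossing clusters of the `N × K` rectangle -/
noncomputable def eK (N K : ℕ) : ℝ := ∫ ω, ((crossingClusters N K ω).ncard : ℝ) ∂perc

theorem openAdj_sum2 {ω : Conf} {a b : ℤ × ℤ} (h : OpenAdj ω a b) :
    b.1 + b.2 = a.1 + a.2 + 1 ∨ b.1 + b.2 = a.1 + a.2 - 1 := by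
  rcases h with ⟨h, _⟩ | ⟨h, _⟩ | ⟨h, _⟩ | ⟨h, _⟩
  · left; rw [h]; simp only; ring
  · right; rw [h]; simp only; ring
  · left; rw [h]; simp only; ring
  · right; rw [h]; simp only; ring

theorem row_touch (N : ℕ) (hN : 1 ≤ N) (c : ℤ) (ω : Conf) :
    crossO N (BoxO N c (c+1)) ω = touch N (BoxO N c (c+1)) c ω := by
  ext C
  constructor
  · intro hC
    refine ⟨hC, ?_⟩
    obtain ⟨a, ha, ha0, hCa, b, hb, hbN⟩ := hC
    rw [hCa] at hb
    have hab : Relation.ReflTransGen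
        (fun x y => OpenAdj ω x y ∧ x ∈ BoxO N c (c+1) ∧ y ∈ BoxO N c (c+1)) a b := hb
    rcases Relation.ReflTransGen.cases_head hab with h | ⟨x, hx, _⟩
    · exfalso
      rw [h] at ha0
      have : (N : ℤ) = 0 := by rw [← hbN, ha0]
      omega
    · have h1 : a.1 + a.2 = c ∨ a.1 + a.2 = c + 1 := by
        have := ha.2.2.1
        have := ha.2.2.2
        omega
      rcases h1 with h1 | h1
      · exact ⟨a, by rw [hCa]; exact Relation.ReflTransGen.refl, h1⟩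
      · refine ⟨x, by rw [hCa]; exact Relation.ReflTransGen.single hx, ?_⟩
        have h2 := openAdj_sum2 hx.1
        have h3 := hx.2.2.2.2.2
        omega
  · exact fun h => h.1

theorem eK_succ : ∃ A : ℝ, 0 ≤ A ∧ ∀ N K : ℕ, 1 ≤ N → |eK N (K+1) - eK N K| ≤ A := by
  obtain ⟨A, hA⟩ := touch_bound
  refine ⟨4 * |A|, by positivity, fun N K hN => ?_⟩
  have e1 : eK N (K+1) = ∫ ω, ((crossO N (BoxO N 1 (K + 1 + 1)) ω).ncard : ℝ) ∂perc := by
    unfold eK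
    simp only [cross_eq]
    push_cast
    rfl
  have e2 : eK N K = ∫ ω, ((crossO N (BoxO N 1 (K + 1)) ω).ncard : ℝ) ∂perc := by
    unfold eK
    simp only [cross_eq]
  rw [e1, e2]
  have i1 := integrable_cross N 1 ((K:ℤ) + 1 + 1)
  have i2 := integrable_cross N 1 ((K:ℤ) + 1)
  have i3 := integrable_cross N ((K:ℤ) + 1) ((K:ℤ) + 1 + 1)
  have t1 := integrable_touch N 1 ((K:ℤ) + 1 + 1) ((K:ℤ) + 1)
  have t2 := integrable_touch N 1 ((K:ℤ) + 1) ((K:ℤ) + 1)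
  have t3 := integrable_touch N ((K:ℤ) + 1) ((K:ℤ) + 1 + 1) ((K:ℤ) + 1)
  have h4 := fun ω => cut N 1 ((K:ℤ) + 1) ((K:ℤ) + 1 + 1)
    (by linarith [Int.natCast_nonneg K]) (by linarith) ω
  have u1 : ∀ ω, ((crossO N (BoxO N 1 ((K:ℤ) + 1 + 1)) ω).ncard : ℝ)
      - (crossO N (BoxO N 1 ((K:ℤ) + 1)) ω).ncard ≤
      (touch N (BoxO N 1 ((K:ℤ) + 1 + 1)) ((K:ℤ) + 1) ω).ncard
        + (touch N (BoxO N 1 ((K:ℤ) + 1)) ((K:ℤ) + 1) ω).ncard
        + (touch N (BoxO N ((K:ℤ) + 1) ((K:ℤ) + 1 + 1)) ((K:ℤ) + 1) ω).ncard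
        + (touch N (BoxO N ((K:ℤ) + 1) ((K:ℤ) + 1 + 1)) ((K:ℤ) + 1) ω).ncard := by
    intro ω
    have := (abs_le.mp (h4 ω)).2
    rw [row_touch N hN] at this
    linarith
  have u2 : ∀ ω, -(((touch N (BoxO N 1 ((K:ℤ) + 1 + 1)) ((K:ℤ) + 1) ω).ncard : ℝ)
        + (touch N (BoxO N 1 ((K:ℤ) + 1)) ((K:ℤ) + 1) ω).ncard
        + (touch N (BoxO N ((K:ℤ) + 1) ((K:ℤ) + 1 + 1)) ((K:ℤ) + 1) ω).ncard
        + (touch N (BoxO N ((K:ℤ) + 1) ((K:ℤ) + 1 + 1)) ((K:ℤ) + 1) ω).ncard) ≤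
      ((crossO N (BoxO N 1 ((K:ℤ) + 1 + 1)) ω).ncard : ℝ)
      - (crossO N (BoxO N 1 ((K:ℤ) + 1)) ω).ncard := by
    intro ω
    have := (abs_le.mp (h4 ω)).1
    rw [row_touch N hN] at this
    have h0 : (0:ℝ) ≤ (touch N (BoxO N ((K:ℤ) + 1) ((K:ℤ) + 1 + 1)) ((K:ℤ) + 1) ω).ncard :=
      Nat.cast_nonneg _
    linarith
  have v1 := integral_mono (i1.sub i2) (((t1.add t2).add t3).add t3) u1
  have v2 := integral_mono (((t1.add t2).add t3).add t3).neg (i1.sub i2) u2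
  have h5 := hA N 1 ((K:ℤ) + 1 + 1) ((K:ℤ) + 1)
  have h6 := hA N 1 ((K:ℤ) + 1) ((K:ℤ) + 1)
  have h7 := hA N ((K:ℤ) + 1) ((K:ℤ) + 1 + 1) ((K:ℤ) + 1)
  have h8 := le_abs_self A
  have w1 := integral_sub i1 i2
  have w2 := integral_add ((t1.add t2).add t3) t3
  have w3 := integral_add (t1.add t2) t3
  have w4 := integral_add t1 t2
  simp only [Pi.sub_apply, Pi.add_apply, Pi.neg_apply] at v1 v2 w2 w3
  rw [integral_neg] at v2
  rw [w1, w2, w3, w4] at v1 v2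
  rw [abs_le]
  constructor <;> linarith

/-- **Main theorem, all lengths.** -/
theorem main_all : ∃ A : ℝ, ∀ N K : ℕ, 1 ≤ N →
    |eK N K - Real.sqrt 3 / 4 * (K / N)| ≤ A * (1 + K / (N:ℝ)^2) := by
  obtain ⟨A, hA⟩ := main_unif
  obtain ⟨B, hB0, hB⟩ := eK_succ
  refine ⟨|A| + B + 1, fun N K hN => ?_⟩
  have hN0 : (1:ℝ) ≤ N := by exact_mod_cast hN
  have hs0 : 0 ≤ Real.sqrt 3 := Real.sqrt_nonneg 3
  have hs : Real.sqrt 3 / 4 ≤ 1 := by
    have : Real.sqrt 3 ≤ 2 := by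
      rw [Real.sqrt_le_left (by norm_num)]; norm_num
    linarith
  have key : ∀ M : ℕ, |eK N (2 * M) - Real.sqrt 3 / 4 * (((2 * M : ℕ) : ℝ) / N)| ≤
      |A| * (1 + M / (N:ℝ)^2) := by
    intro M
    have h1 := hA N M hN
    have h2 : eK N (2*M) = ec N M := rfl
    have h3 : Real.sqrt 3 / 4 * (((2 * M : ℕ) : ℝ) / N) = Real.sqrt 3 / 2 * (M / N) := by
      push_cast; ring
    rw [h2, h3]
    refine h1.trans ?_
    gcongr
    exact le_abs_self A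
  rcases Nat.even_or_odd' K with ⟨M, rfl | rfl⟩
  · refine (key M).trans ?_
    have h0 : (0:ℝ) ≤ M / (N:ℝ)^2 := by positivity
    have h1 : ((2 * M : ℕ) : ℝ) / (N:ℝ)^2 = 2 * (M / (N:ℝ)^2) := by push_cast; ring
    rw [h1]
    nlinarith [abs_nonneg A, mul_nonneg (abs_nonneg A) h0, mul_nonneg hB0 h0]
  · have h1 := key M
    have h2 := hB N (2*M) hN
    have h0 : (0:ℝ) ≤ M / (N:ℝ)^2 := by positivity
    have h3 : ((2 * M + 1 : ℕ) : ℝ) / (N:ℝ)^2 = 2 * (M / (N:ℝ)^2) + 1 / (N:ℝ)^2 := by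
      push_cast; ring
    have h4 : Real.sqrt 3 / 4 * (((2 * M + 1 : ℕ) : ℝ) / N) =
        Real.sqrt 3 / 4 * (((2 * M : ℕ) : ℝ) / N) + Real.sqrt 3 / 4 * (1 / N) := by
      push_cast; ring
    have h5 : Real.sqrt 3 / 4 * (1 / N) ≤ 1 := by
      have : (1:ℝ) / N ≤ 1 := by rw [div_le_one (by linarith)]; exact hN0
      calc Real.sqrt 3 / 4 * (1 / N) ≤ 1 * 1 := by gcongr
        _ = 1 := by norm_num
    have h6 : 0 ≤ Real.sqrt 3 / 4 * (1 / (N:ℝ)) := by positivity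
    have h7 : (0:ℝ) ≤ 1 / (N:ℝ)^2 := by positivity
    rw [h3, h4]
    rw [abs_le] at h1 h2 ⊢
    have h8 : 0 ≤ |A| := abs_nonneg A
    have h9 := mul_nonneg h8 h0
    have h10 := mul_nonneg hB0 h0
    have h11 := mul_nonneg h8 h7
    have h12 := mul_nonneg hB0 h7
    constructor <;> nlinarith

end Pool.Agent.H980R2.Unif
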