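import Pool.Agent.H980R2.Unif.Defs
import Pool.Agent.H980R2.Cross.T30
import Pool.Agent.H974R2.Count
import Pool.Agent.H974R2.Block

/-! U3: finite expectations.  `perc` restricted to finitely many edges is the weighted finite sum
`Ex (fun _ => 1/2)` of `Pool.Agent.H974R2.Basic` (namespace `H974`).

`Edge` and `H974.Edg` have opposite Bool conventions: `(u,v,false)` of `Perc` joins `(u,v)`, `(u+1,v)`,
which is `(u,v,true)` of `H974`.  `cf F : Conf` is the configuration whose open edges are those of `F`.
`ex_eq`: `f` depends only on the edges of the finite set `S`; model: `integral_eq_avg` in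
`Pool/Agent/H980R2/Cross/T30.lean` (there for the tiles of a strip). -/

namespace Pool.Agent.H980R2.Unif

open Pool.Agent.H988R2.Perc Pool.Agent.H980R2.Cross MeasureTheory

open Classical in
/-- the configuration with the open edges `F` -/
noncomputable def cf (F : Finset H974.Edg) : Conf := fun e => decide ((e.1, e.2.1, !e.2.2) ∈ F)

theorem openAdj_cf (F : Finset H974.Edg) (a b : ℤ × ℤ) :
    OpenAdj (cf F) a b ↔ H974.Adj (↑F : Set H974.Edg) a b := by
  have hc : ∀ (u v : ℤ) (t : Bool), cf F (u, v, t) = true ↔ (u, v, !t) ∈ F := by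
    intro u v t
    unfold cf
    simp only [decide_eq_true_eq]
  constructor
  · rintro (⟨e, h⟩ | ⟨e, h⟩ | ⟨e, h⟩ | ⟨e, h⟩)
    · rw [hc] at h
      refine ⟨_, h, Or.inl ⟨?_, ?_⟩⟩
      · rfl
      · rw [e]; rfl
    · rw [hc] at h
      refine ⟨_, h, Or.inr ⟨?_, ?_⟩⟩
      · rfl
      · rw [e]; rfl
    · rw [hc] at h
      refine ⟨_, h, Or.inl ⟨?_, ?_⟩⟩
      · rfl
      · rw [e]; rfl
    · rw [hc] at h
      refine ⟨_, h, Or.inr ⟨?_, ?_⟩⟩
      · rfl
      · rw [e]; rfl
  · rintro ⟨⟨u, v, t⟩, he, h⟩
    have he' : (u, v, t) ∈ F := he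
    cases t with
    | true =>
      have h1 : cf F (u, v, false) = true := (hc u v false).2 he'
      rcases h with ⟨rfl, rfl⟩ | ⟨rfl, rfl⟩
      · exact Or.inl ⟨rfl, h1⟩
      · exact Or.inr (Or.inl ⟨rfl, h1⟩)
    | false =>
      have h1 : cf F (u, v, true) = true := (hc u v true).2 he'
      rcases h with ⟨rfl, rfl⟩ | ⟨rfl, rfl⟩
      · exact Or.inr (Or.inr (Or.inl ⟨rfl, h1⟩))
      · exact Or.inr (Or.inr (Or.inr ⟨rfl, h1⟩))

namespace U3

/-- the edge of `Perc` corresponding to an edge of `H974` -/
def eB (j : H974.Edg) : Edge := (j.1, j.2.1, !j.2.2)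

theorem eB_inj {j j' : H974.Edg} (h : eB j = eB j') : j = j' := by
  obtain ⟨a, b, c⟩ := j
  obtain ⟨a', b', c'⟩ := j'
  simp only [eB, Prod.mk.injEq] at h
  obtain ⟨h1, h2, h3⟩ := h
  have h4 : c = c' := by cases c <;> cases c' <;> simp_all
  rw [h1, h2, h4]

/-- bits as a set -/
def tB (S : Finset H974.Edg) (ω : Conf) : Finset H974.Edg := S.filter (fun j => ω (eB j) = true)

theorem cell_eq {S t : Finset H974.Edg} (ht : t ⊆ S) :
    {ω : Conf | tB S ω = t} =
      ⋂ j : ↥S, (fun ω : Conf => ω (eB j.1)) ⁻¹' {decide (j.1 ∈ t)} := by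
  ext ω
  simp only [Set.mem_ofPred_eq, Set.mem_iInter, Set.mem_preimage, Set.mem_singleton_iff]
  constructor
  · rintro e ⟨j, hj⟩
    rw [← e]
    simp only [tB, Finset.mem_filter, hj, true_and]
    cases ω (eB j) <;> simp
  · intro h
    ext j
    simp only [tB, Finset.mem_filter]
    constructor
    · rintro ⟨hj, ho⟩
      have := h ⟨j, hj⟩
      simp only [ho] at this
      simpa using this.symm
    · intro hj
      refine ⟨ht hj, ?_⟩
      have := h ⟨j, ht hj⟩
      simp only [hj, decide_true] at this
      exact this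

theorem measurableSet_cell {S t : Finset H974.Edg} (ht : t ⊆ S) :
    MeasurableSet {ω : Conf | tB S ω = t} := by
  rw [cell_eq ht]
  exact MeasurableSet.iInter (fun j => (measurable_pi_apply (eB j.1)) (measurableSet_singleton _))

theorem perc_cell {S t : Finset H974.Edg} (ht : t ⊆ S) :
    perc {ω : Conf | tB S ω = t} = (1/2) ^ S.card := by
  rw [cell_eq ht]
  have hind : ProbabilityTheory.iIndepFun (fun (e : Edge) (ω : Conf) => ω e) perc := by
    unfold perc
    exact ProbabilityTheory.iIndepFun_infinitePi (X := fun _ b => b) (fun _ => measurable_id)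
  have hinj : Function.Injective (fun j : ↥S => eB j.1) := by
    rintro ⟨j, h⟩ ⟨j', h'⟩ hh
    exact Subtype.ext (eB_inj hh)
  have hind2 := hind.precomp hinj
  have h3 := hind2.measure_inter_preimage_eq_mul (Finset.univ : Finset ↥S)
    (sets := fun j => {decide (j.1 ∈ t)}) (fun j _ => measurableSet_singleton _)
  simp only [Finset.mem_univ, Set.iInter_true] at h3
  have h4 : ∀ j : ↥S, perc ((fun ω : Conf => ω (eB j.1)) ⁻¹' {decide (j.1 ∈ t)}) = 1/2 := by
    intro j
    have := (measurePreserving_eval_infinitePi (fun _ : Edge => coin) (eB j.1)).measure_preimage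
      (measurableSet_singleton (decide (j.1 ∈ t))).nullMeasurableSet
    unfold perc
    rw [← T23.coin_singleton (decide (j.1 ∈ t)), ← this]
  rw [h3]
  simp only [h4]
  rw [Finset.prod_const, Finset.card_univ]
  congr 1
  simp only [Fintype.card_coe]

end U3

open U3

theorem ex_eq (S : Finset H974.Edg) (f : Conf → ℝ)
    (hf : ∀ ω ω' : Conf, (∀ e : Edge, (e.1, e.2.1, !e.2.2) ∈ S → ω e = ω' e) → f ω = f ω') :
    ∫ ω, f ω ∂perc = H974.Ex (fun _ => (1/2 : ℝ)) S (fun F => f (cf F)) ∧ Integrable f perc := by
  classical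
  set G : Finset H974.Edg → ℝ := fun t => f (cf t) with hG
  have h1 : ∀ ω : Conf, f ω =
      ∑ t ∈ S.powerset, Set.indicator {ω : Conf | tB S ω = t} (fun _ => G t) ω := by
    intro ω
    have e1 : f ω = G (tB S ω) := by
      apply hf
      intro e he
      unfold cf
      have hm : ((e.1, e.2.1, !e.2.2) ∈ tB S ω) ↔ ω e = true := by
        simp only [tB, Finset.mem_filter, he, true_and, eB, Bool.not_not]
      by_cases h : ω e = true
      · rw [h]
        exact (decide_eq_true (hm.2 h)).symm
      · have h' : ω e = false := by simpa using h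
        rw [h']
        exact (decide_eq_false (fun h2 => h (hm.1 h2))).symm
    rw [e1, Finset.sum_eq_single (tB S ω)]
    · rw [Set.indicator_of_mem]
      rfl
    · intro t _ hne
      rw [Set.indicator_of_notMem]
      intro h
      exact hne h.symm
    · intro h
      exact absurd (Finset.mem_powerset.mpr (Finset.filter_subset _ _)) h
  have h2 : f = fun ω => ∑ t ∈ S.powerset,
      Set.indicator {ω : Conf | tB S ω = t} (fun _ => G t) ω := funext h1
  have hint : ∀ t ∈ S.powerset,
      Integrable (Set.indicator {ω : Conf | tB S ω = t} (fun _ => G t)) perc := by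
    intro t ht
    have ht' : t ⊆ S := Finset.mem_powerset.mp ht
    exact (integrable_const _).indicator (measurableSet_cell ht')
  constructor
  · have e3 : ∫ ω, f ω ∂perc = ∫ ω, (∑ t ∈ S.powerset,
        Set.indicator {ω : Conf | tB S ω = t} (fun _ => G t) ω) ∂perc := by
      apply integral_congr_ae
      exact Filter.Eventually.of_forall h1
    rw [e3, integral_finsetSum _ hint]
    unfold H974.Ex
    apply Finset.sum_congr rfl
    intro t ht
    have ht' : t ⊆ S := Finset.mem_powerset.mp ht
    rw [integral_indicator_const _ (measurableSet_cell ht'), measureReal_def, perc_cell ht']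
    have hcard : S.card = t.card + (S \ t).card := by
      rw [Finset.card_sdiff_of_subset ht']
      have := Finset.card_le_card ht'
      omega
    rw [ENNReal.toReal_pow, hcard, pow_add, Finset.prod_const, Finset.prod_const]
    simp only [smul_eq_mul, hG]
    have e4 : (1 / 2 : ENNReal).toReal = 1 / 2 := by simp
    have e5 : (1 - 1 / 2 : ℝ) = 1 / 2 := by norm_num
    rw [e4, e5]
  · rw [h2]
    exact integrable_finsetSum _ hint

end Pool.Agent.H980R2.Unif
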